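import Mathlib
import Pool.Agent.D0H46.DC.Lag

namespace Pool.Agent.D0H46.SC

open Finset Polynomial

/-- `a_k = (1/2)_k / k!` -/
def ak (k : ℕ) : ℚ := ∏ j ∈ range k, ((2 * j + 1 : ℚ) / (2 * j + 2))

theorem ak_succ (k : ℕ) : ak (k+1) = ak k * ((2 * k + 1 : ℚ) / (2 * k + 2)) := by
  unfold ak; rw [prod_range_succ]

theorem ak_zero : ak 0 = 1 := by simp [ak]

theorem ak_succ' (k : ℕ) : (2 * k + 2 : ℚ) * ak (k+1) = (2 * k + 1) * ak k := by
  rw [ak_succ]
  have : (2 * k + 2 : ℚ) ≠ 0 := by positivity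
  field_simp

/-- `C_N = Σ a_k^2/(2N+1-2k)` -/
def CN (N : ℕ) : ℚ := ∑ k ∈ range (N+1), ak k ^ 2 / (2 * N + 1 - 2 * k)

theorem tele (N : ℕ) (K : ℕ) (hK : K ≤ N + 1) :
    ∑ k ∈ range K, ((2 * (N+1) + 1 : ℚ)^2 * (ak k ^ 2 / (2 * (N+1) + 1 - 2 * k)) - 4 * (N+1)^2 * (ak k ^ 2 / (2 * N + 1 - 2 * k)))
      = - (4 * K^2 * ak K ^ 2 / (2 * (N+1) + 1 - 2 * K)) := by
  induction K with
  | zero => simp
  | succ K ih =>
    rw [sum_range_succ, ih (by omega), ak_succ]
    obtain ⟨m, rfl⟩ : ∃ m, N = K + m := ⟨N - K, by omega⟩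
    push_cast
    have e1 : (2 * ((K : ℚ) + m + 1) + 1 - 2 * K) = 2 * m + 3 := by ring
    have e2 : (2 * ((K : ℚ) + m) + 1 - 2 * K) = 2 * m + 1 := by ring
    have e3 : (2 * ((K : ℚ) + m + 1) + 1 - 2 * (K + 1)) = 2 * m + 1 := by ring
    rw [e1, e2, e3]
    have h1 : (2 * (m : ℚ) + 3) ≠ 0 := by positivity
    have h2 : (2 * (m : ℚ) + 1) ≠ 0 := by positivity
    have h4 : (2 * (K : ℚ) + 2) ≠ 0 := by positivity
    field_simp
    ring

theorem CN_rec (N : ℕ) : (2 * (N+1) + 1 : ℚ)^2 * CN (N+1) - 4 * (N+1)^2 * CN N = (4 * (N+1) + 1) * ak (N+1) ^ 2 := by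
  have h := tele N (N+1) le_rfl
  unfold CN
  rw [sum_range_succ _ (N+1), mul_add, mul_sum, mul_sum]
  rw [sum_sub_distrib] at h
  push_cast at h ⊢
  have e1 : (2 * ((N : ℚ) + 1) + 1 - 2 * (N + 1)) = 1 := by ring
  rw [e1] at h ⊢
  linear_combination h

/-- the exact evaluation -/
theorem S_eq (N : ℕ) : ∑ k ∈ range (N+1), (4 * k + 1 : ℚ) * ak k ^ 4 = (2 * N + 1)^2 * ak N ^ 2 * CN N := by
  induction N with
  | zero => simp [CN, ak]
  | succ N ih =>
    rw [sum_range_succ, ih]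
    have h := CN_rec N
    have h2 := ak_succ' N
    have h3 : (2 * (N : ℚ) + 1)^2 * ak N ^ 2 = (2 * N + 2)^2 * ak (N+1)^2 := by
      rw [← mul_pow, ← mul_pow, h2]
    rw [h3]
    push_cast
    linear_combination (-(ak (N+1))^2) * h

/-- `b_k = ∏ ((2j-1)^2 - n^2)/(2j)^2` -/
def bk (N k : ℕ) : ℚ := ∏ j ∈ range k, (((2 * j + 1 : ℚ)^2 - (2 * N + 1)^2) / (2 * j + 2)^2)

theorem bk_ak (N k : ℕ) : bk N k = ak k ^ 2 * ∏ j ∈ range k, (1 - ((2 * N + 1 : ℚ) / (2 * j + 1))^2) := by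
  unfold bk ak
  rw [← prod_pow, ← prod_mul_distrib]
  apply prod_congr rfl
  intro j _
  have h1 : (2 * j + 1 : ℚ) ≠ 0 := by positivity
  have h2 : (2 * j + 2 : ℚ) ≠ 0 := by positivity
  field_simp

/-- difference product `∏_{j ≠ k} (k - j)` -/
def Ed (N k : ℕ) : ℚ := ∏ j ∈ (range (N+1)).erase k, ((k : ℚ) - j)

theorem Ed_succ (N k : ℕ) (hk : k < N) : Ed N (k+1) * ((k : ℚ) - N) = (k + 1) * Ed N k := by
  obtain ⟨N, rfl⟩ : ∃ M, N = M + 1 := ⟨N - 1, by omega⟩
  have h1 : Ed (N+1) (k+1) = ((k : ℚ) + 1) * ∏ j ∈ (range (N+1)).erase k, ((k : ℚ) - j) := by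
    unfold Ed
    rw [DC.erase_succ_range, prod_insert (by simp), prod_map]
    simp only [Function.Embedding.coeFn_mk]
    push_cast
    congr 1
    · ring
    · apply prod_congr rfl
      intro j _
      ring
  have h2 : Ed (N+1) k = ((k : ℚ) - (N+1)) * ∏ j ∈ (range (N+1)).erase k, ((k : ℚ) - j) := by
    unfold Ed
    rw [range_add_one (n := N+1), erase_insert_of_ne (by omega), prod_insert]
    · push_cast; rfl
    · simp
  rw [h1, h2]
  push_cast
  ring

theorem Ed_ne (N k : ℕ) : Ed N k ≠ 0 := by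
  unfold Ed
  rw [prod_ne_zero_iff]
  intro j hj
  rw [mem_erase] at hj
  intro h
  apply hj.1
  have : (k : ℚ) = j := by linarith
  exact_mod_cast this.symm

theorem Ed_zero (N : ℕ) : Ed N 0 = (-1)^N * ∏ j ∈ range N, ((j : ℚ) + 1) := by
  unfold Ed
  have : (range (N+1)).erase 0 = (range N).map ⟨Nat.succ, Nat.succ_injective⟩ := by
    ext a
    cases a with
    | zero => simp
    | succ a => simp
  rw [this, prod_map]
  have hm1 : ((-1 : ℚ))^N = ∏ k ∈ range N, (-1 : ℚ) := by rw [prod_const, card_range]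
  rw [hm1, ← prod_mul_distrib]
  apply prod_congr rfl
  intro j _
  simp only [Function.Embedding.coeFn_mk, Nat.succ_eq_add_one]
  push_cast
  ring

/-- numerators `∏_{j=1}^N (k+j)` -/
def Pd (N : ℕ) (x : ℚ) : ℚ := ∏ j ∈ range N, (x + (j + 1))

theorem Pd_succ (N : ℕ) (x : ℚ) : Pd N (x+1) * (x + 1) = Pd N x * (x + 1 + N) := by
  induction N with
  | zero => simp [Pd]
  | succ N ih =>
    unfold Pd at ih ⊢
    rw [prod_range_succ, prod_range_succ]
    push_cast
    linear_combination (x + 1 + (N + 1)) * ih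

theorem bk_Ed (N k : ℕ) (hk : k ≤ N) : bk N k * Ed N k = (-1)^N * Pd N k := by
  induction k with
  | zero => 
    rw [Ed_zero]
    simp [bk, Pd]
  | succ k ih =>
    have ih' := ih (by omega)
    have h1 := Ed_succ N k (by omega)
    have h2 := Pd_succ N k
    have h3 : bk N (k+1) = bk N k * (((k : ℚ) - N) * (k + 1 + N) / (k+1)^2) := by
      unfold bk
      rw [prod_range_succ]
      congr 1
      have : (2 * (k : ℚ) + 2) ≠ 0 := by positivity
      have : ((k : ℚ) + 1) ≠ 0 := by positivity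
      field_simp
      ring
    have hk1 : ((k : ℚ) + 1) ≠ 0 := by positivity
    rw [h3]
    push_cast
    have h4 : Pd N ((k : ℚ) + 1) = Pd N k * (k + 1 + N) / (k + 1) := by
      rw [eq_div_iff hk1, h2]
    rw [h4]
    have h5 : bk N k * (((k : ℚ) - N) * (k + 1 + N) / (k+1)^2) * Ed N (k+1)
        = bk N k * ((k + 1 + N) / (k+1)^2) * (Ed N (k+1) * ((k : ℚ) - N)) := by
      field_simp
    rw [h5, h1]
    field_simp
    linear_combination ih'

/-- partial fractions -/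
theorem pf (N : ℕ) (x : ℚ) (hx : ∀ k : ℕ, x ≠ k) :
    ∑ k ∈ range (N+1), bk N k / (x - k) = (-1)^N * Pd N x / ∏ j ∈ range (N+1), (x - j) := by
  set v : ℕ → ℚ := fun k => if k = N + 1 then x else k with hv
  have hinj : Set.InjOn v (range (N+1+1) : Finset ℕ) := by
    intro a ha b hb hab
    simp only [hv] at hab
    split_ifs at hab with h1 h2 h2
    · rw [h1, h2]
    · exact absurd hab (hx b)
    · exact absurd hab.symm (hx a)
    · exact_mod_cast hab
  set g : ℚ[X] := ∏ j ∈ range N, (Polynomial.X + C ((j : ℚ) + 1)) with hg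
  have hdeg : g.natDegree < N + 1 := by
    rw [hg]
    apply lt_of_le_of_lt (natDegree_prod_le _ _)
    have h1 : ∀ j ∈ range N, (Polynomial.X + C ((j : ℚ) + 1)).natDegree = 1 := by
      intro j _
      rw [natDegree_X_add_C]
    rw [sum_congr rfl h1, sum_const, card_range]
    simp
  have hge : ∀ y, g.eval y = Pd N y := by
    intro y
    rw [hg, eval_prod]
    unfold Pd
    apply prod_congr rfl
    intro j _
    simp
  have h := DC.lag_zero (N+1) v hinj g hdeg
  rw [sum_range_succ] at h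
  have e1 : ∏ j ∈ (range (N+1+1)).erase (N+1), (v (N+1) - v j) = ∏ j ∈ range (N+1), (x - j) := by
    have : (range (N+1+1)).erase (N+1) = range (N+1) := by
      rw [range_add_one (n := N+1), erase_insert]
      simp
    rw [this]
    apply prod_congr rfl
    intro j hj
    have hj := mem_range.mp hj
    simp only [hv, if_true]
    rw [if_neg (by omega)]
  have e2 : ∀ k ∈ range (N+1), g.eval (v k) / ∏ j ∈ (range (N+1+1)).erase k, (v k - v j)
      = - ((-1)^N * (bk N k / (x - k))) := by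
    intro k hk
    have hk := mem_range.mp hk
    have hvk : v k = k := by simp only [hv]; rw [if_neg (by omega)]
    have e3 : ∏ j ∈ (range (N+1+1)).erase k, (v k - v j) = ((k : ℚ) - x) * Ed N k := by
      rw [range_add_one (n := N+1), erase_insert_of_ne (by omega), prod_insert (by simp), hvk]
      congr 1
      · simp only [hv, if_true]
      · unfold Ed
        apply prod_congr rfl
        intro j hj
        have := mem_range.mp (mem_of_mem_erase hj)
        simp only [hv]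
        rw [if_neg (by omega)]
    rw [e3, hge, hvk]
    have h5 := bk_Ed N k (by omega)
    have h6 := Ed_ne N k
    have h7 : x - k ≠ 0 := sub_ne_zero.mpr (hx k)
    have h8 : (k : ℚ) - x ≠ 0 := by
      intro h; apply h7; linarith
    have h9 : ((-1 : ℚ)^N) * (-1)^N = 1 := by rw [← mul_pow]; norm_num
    rw [div_eq_iff (mul_ne_zero h8 h6)]
    have : -((-1)^N * (bk N k / (x - k))) * (((k : ℚ) - x) * Ed N k) = (-1)^N * (bk N k * Ed N k) := by
      field_simp
      ring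
    rw [this, h5, ← mul_assoc, h9, one_mul]
  rw [sum_congr rfl e2, e1, hge] at h
  have hvN : v (N+1) = x := by simp [hv]
  rw [hvN, sum_neg_distrib, ← mul_sum] at h
  have h9 : ((-1 : ℚ)^N) * (-1)^N = 1 := by rw [← mul_pow]; norm_num
  have h10 : (-1)^N * ∑ k ∈ range (N+1), bk N k / (x - k) = Pd N x / ∏ j ∈ range (N+1), (x - j) := by
    linear_combination -h
  calc _ = ((-1 : ℚ)^N * (-1)^N) * ∑ k ∈ range (N+1), bk N k / (x - k) := by rw [h9, one_mul]
    _ = _ := by rw [mul_assoc, h10]; ring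

/-- Saalschütz specialization -/
theorem saal (N : ℕ) : ak N ^ 2 * ∑ k ∈ range (N+1), bk N k * ((2 * N + 1 : ℚ) / (2 * N + 1 - 2 * k))
    = ∏ j ∈ range N, (1 - ((2 * N + 1 : ℚ) / (2 * (j + 1)))^2) := by
  have hx : ∀ k : ℕ, ((2 * N + 1 : ℚ) / 2) ≠ k := by
    intro k h
    rw [div_eq_iff (by norm_num)] at h
    have : 2 * N + 1 = k * 2 := by exact_mod_cast h
    omega
  have h := pf N ((2 * N + 1 : ℚ) / 2) hx
  have e1 : ∑ k ∈ range (N+1), bk N k * ((2 * N + 1 : ℚ) / (2 * N + 1 - 2 * k))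
      = ((2 * N + 1 : ℚ) / 2) * ∑ k ∈ range (N+1), bk N k / ((2 * N + 1 : ℚ) / 2 - k) := by
    rw [mul_sum]
    apply sum_congr rfl
    intro k _
    have h1 : (2 * N + 1 : ℚ) / 2 - k ≠ 0 := sub_ne_zero.mpr (hx k)
    have h2 : (2 * N + 1 - 2 * k : ℚ) ≠ 0 := by
      intro h; apply h1; linarith
    field_simp
  rw [e1, h, prod_range_succ']
  -- products
  have hden : ∏ k ∈ range N, ((2 * N + 1 : ℚ) / 2 - ((k + 1 : ℕ) : ℚ)) ≠ 0 := by
    rw [prod_ne_zero_iff]
    intro k _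
    exact sub_ne_zero.mpr (hx (k+1))
  have hx0 : ((2 * N + 1 : ℚ) / 2) ≠ 0 := by positivity
  -- a_N = ∏ (x - (j+1)) / (j+1)
  have ha : ak N = ∏ k ∈ range N, (((2 * N + 1 : ℚ) / 2 - ((k + 1 : ℕ) : ℚ)) / (k + 1)) := by
    unfold ak
    rw [prod_div_distrib, prod_div_distrib]
    have h1 : ∏ j ∈ range N, (2 * (j : ℚ) + 1) = 2^N * ∏ k ∈ range N, ((2 * N + 1 : ℚ) / 2 - ((k + 1 : ℕ) : ℚ)) := by
      rw [← prod_range_reflect]
      have : (2 : ℚ)^N = ∏ k ∈ range N, (2 : ℚ) := by rw [prod_const, card_range]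
      rw [this, ← prod_mul_distrib]
      apply prod_congr rfl
      intro j hj
      have hj := mem_range.mp hj
      have : ((N - 1 - j : ℕ) : ℚ) = N - 1 - j := by
        rw [Nat.cast_sub (by omega), Nat.cast_sub (by omega)]; simp
      rw [this]
      push_cast
      ring
    have h2 : ∏ j ∈ range N, (2 * (j : ℚ) + 2) = 2^N * ∏ k ∈ range N, ((k : ℚ) + 1) := by
      have : (2 : ℚ)^N = ∏ k ∈ range N, (2 : ℚ) := by rw [prod_const, card_range]
      rw [this, ← prod_mul_distrib]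
      apply prod_congr rfl
      intro j _
      ring
    rw [h1, h2, mul_div_mul_left _ _ (by positivity)]
  have key : ak N ^ 2 * ((-1)^N * Pd N ((2 * N + 1 : ℚ) / 2) / ∏ k ∈ range N, ((2 * N + 1 : ℚ) / 2 - ((k + 1 : ℕ) : ℚ)))
      = ∏ j ∈ range N, (1 - ((2 * N + 1 : ℚ) / (2 * (j + 1)))^2) := by
    rw [ha]
    unfold Pd
    have hm1 : ((-1 : ℚ))^N = ∏ k ∈ range N, (-1 : ℚ) := by rw [prod_const, card_range]
    rw [hm1, ← prod_mul_distrib, ← prod_div_distrib, ← prod_pow, ← prod_mul_distrib]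
    apply prod_congr rfl
    intro j _
    have h1 : (2 * N + 1 : ℚ) / 2 - ((j + 1 : ℕ) : ℚ) ≠ 0 := sub_ne_zero.mpr (hx (j+1))
    have h2 : ((j : ℚ) + 1) ≠ 0 := by positivity
    push_cast at h1 ⊢
    generalize (2 * N + 1 : ℚ) = n at *
    have h3 : n - 2 * ((j : ℚ) + 1) ≠ 0 := by
      intro h; apply h1; linarith
    field_simp
    ring
  rw [← key]
  simp only [Nat.cast_zero, sub_zero]
  field_simp

end Pool.Agent.D0H46.SC
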