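import Mathlib

namespace Pool.Agent.D0H46.SC

open Finset

section
variable (p : ℕ) [hp : Fact p.Prime]

/-- rationals with denominator prime to `p` -/
def Zp : Subring ℚ where
  carrier := {x | ¬ p ∣ x.den}
  mul_mem' := by
    intro a b ha hb h
    rcases hp.out.dvd_mul.mp (h.trans (Rat.mul_den_dvd a b)) with h | h
    · exact ha h
    · exact hb h
  add_mem' := by
    intro a b ha hb h
    rcases hp.out.dvd_mul.mp (h.trans (Rat.add_den_dvd a b)) with h | h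
    · exact ha h
    · exact hb h
  zero_mem' := by
    simp only [Set.mem_ofPred_eq, Rat.den_zero]
    intro h
    exact hp.out.one_lt.ne' (Nat.dvd_one.mp h)
  one_mem' := by
    simp only [Set.mem_ofPred_eq, Rat.den_one]
    intro h
    exact hp.out.one_lt.ne' (Nat.dvd_one.mp h)
  neg_mem' := by
    intro a ha
    simpa using ha

theorem mem_Zp {x : ℚ} : x ∈ Zp p ↔ ¬ p ∣ x.den := Iff.rfl

/-- the ideal `p^m Z_(p)` -/
def I (m : ℕ) : AddSubgroup ℚ where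
  carrier := {x | ∃ u ∈ Zp p, x = (p : ℚ)^m * u}
  add_mem' := by
    rintro a b ⟨u, hu, rfl⟩ ⟨v, hv, rfl⟩
    exact ⟨u + v, add_mem hu hv, by ring⟩
  zero_mem' := ⟨0, zero_mem _, by ring⟩
  neg_mem' := by
    rintro a ⟨u, hu, rfl⟩
    exact ⟨-u, neg_mem hu, by ring⟩

variable {p}

theorem mem_I {m : ℕ} {x : ℚ} : x ∈ I p m ↔ ∃ u ∈ Zp p, x = (p : ℚ)^m * u := Iff.rfl

theorem I_mul {a b : ℕ} {x y : ℚ} (hx : x ∈ I p a) (hy : y ∈ I p b) : x * y ∈ I p (a + b) := by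
  obtain ⟨u, hu, rfl⟩ := hx
  obtain ⟨v, hv, rfl⟩ := hy
  exact ⟨u * v, mul_mem hu hv, by ring⟩

theorem natCast_Zp (k : ℕ) : (k : ℚ) ∈ Zp p := natCast_mem _ k

theorem I_mono {a b : ℕ} (h : a ≤ b) {x : ℚ} (hx : x ∈ I p b) : x ∈ I p a := by
  obtain ⟨u, hu, rfl⟩ := hx
  obtain ⟨c, rfl⟩ := Nat.exists_eq_add_of_le h
  refine ⟨(p : ℚ)^c * u, mul_mem (pow_mem (natCast_Zp p) _) hu, by rw [pow_add]; ring⟩

theorem I_zero {x : ℚ} : x ∈ I p 0 ↔ x ∈ Zp p := by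
  constructor
  · rintro ⟨u, hu, rfl⟩
    simpa using hu
  · intro h
    exact ⟨x, h, by simp⟩

theorem I_Zp {a : ℕ} {x : ℚ} (hx : x ∈ I p a) : x ∈ Zp p := I_zero.mp (I_mono (Nat.zero_le _) hx)

theorem I_mul_left {a : ℕ} {x y : ℚ} (hx : x ∈ Zp p) (hy : y ∈ I p a) : x * y ∈ I p a := by
  have := I_mul (I_zero.mpr hx) hy
  rwa [zero_add] at this

theorem I_mul_right {a : ℕ} {x y : ℚ} (hx : x ∈ I p a) (hy : y ∈ Zp p) : x * y ∈ I p a := by
  have := I_mul hx (I_zero.mpr hy)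
  rwa [add_zero] at this

theorem I_pow {a : ℕ} {x : ℚ} (hx : x ∈ I p a) (k : ℕ) : x^k ∈ I p (a * k) := by
  obtain ⟨u, hu, rfl⟩ := hx
  exact ⟨u^k, pow_mem hu k, by rw [mul_pow, pow_mul]⟩

theorem inv_Zp {k : ℕ} (hk : ¬ p ∣ k) : ((k : ℚ))⁻¹ ∈ Zp p := by
  rw [mem_Zp]
  rw [Rat.inv_natCast_den]
  split_ifs with h
  · intro hd
    exact hp.out.one_lt.ne' (Nat.dvd_one.mp hd)
  · exact hk

theorem div_Zp {x : ℚ} {k : ℕ} (hx : x ∈ Zp p) (hk : ¬ p ∣ k) : x / k ∈ Zp p := by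
  rw [div_eq_mul_inv]
  exact mul_mem hx (inv_Zp hk)

/-- `p^r/k` for `0 < k < p^r` -/
theorem ppow_div {r k : ℕ} (h0 : 0 < k) (h1 : k < p^r) : (p^r : ℚ) / k ∈ I p 1 := by
  obtain ⟨v, k', hk', rfl⟩ := Nat.exists_eq_pow_mul_and_not_dvd h0.ne' p hp.out.one_lt.ne'
  have hv : v < r := by
    by_contra hv
    push Not at hv
    have h2 : p^r ≤ p^v := Nat.pow_le_pow_right hp.out.pos hv
    have h3 : 0 < k' := Nat.pos_of_ne_zero (by rintro rfl; simp at h0)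
    nlinarith [Nat.pow_pos (n := v) hp.out.pos]
  obtain ⟨c, rfl⟩ := Nat.exists_eq_add_of_lt hv
  refine ⟨(p : ℚ)^c * (k' : ℚ)⁻¹, mul_mem (pow_mem (natCast_Zp p) _) (inv_Zp hk'), ?_⟩
  have hp0 : (p : ℚ) ≠ 0 := by exact_mod_cast hp.out.ne_zero
  have hk0 : (k' : ℚ) ≠ 0 := by
    have : k' ≠ 0 := by rintro rfl; simp at h0
    exact_mod_cast this
  push_cast
  rw [show v + c + 1 = v + (c + 1) by ring, pow_add]
  field_simp
  ring

/-- `p^r/k` for `0 < k < p^r` with `p^(r-1) ∤ k` -/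
theorem ppow_div2 {r k : ℕ} (h0 : 0 < k) (h1 : k < p^(r+1)) (h2 : ¬ p^r ∣ k) : (p^(r+1) : ℚ) / k ∈ I p 2 := by
  obtain ⟨v, k', hk', rfl⟩ := Nat.exists_eq_pow_mul_and_not_dvd h0.ne' p hp.out.one_lt.ne'
  have hv : v < r := by
    by_contra hv
    push Not at hv
    exact h2 (Dvd.dvd.mul_right (pow_dvd_pow p hv) _)
  obtain ⟨c, rfl⟩ := Nat.exists_eq_add_of_lt hv
  refine ⟨(p : ℚ)^c * (k' : ℚ)⁻¹, mul_mem (pow_mem (natCast_Zp p) _) (inv_Zp hk'), ?_⟩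
  have hp0 : (p : ℚ) ≠ 0 := by exact_mod_cast hp.out.ne_zero
  have hk0 : (k' : ℚ) ≠ 0 := by
    have : k' ≠ 0 := by rintro rfl; simp at h0
    exact_mod_cast this
  push_cast
  rw [show v + c + 1 + 1 = v + (c + 2) by ring, pow_add]
  field_simp
  ring

theorem den_ne {x : ℚ} (hx : x ∈ Zp p) : (x.den : ZMod p) ≠ 0 := by
  rw [Ne, ZMod.natCast_eq_zero_iff]
  exact hx

/-- reduction of sums -/
theorem rd_add {x y : ℚ} (hx : x ∈ Zp p) (hy : y ∈ Zp p) : ((x + y : ℚ) : ZMod p) = x + y :=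
  Rat.cast_add_of_ne_zero (den_ne hx) (den_ne hy)

theorem rd_mul {x y : ℚ} (hx : x ∈ Zp p) (hy : y ∈ Zp p) : ((x * y : ℚ) : ZMod p) = x * y :=
  Rat.cast_mul_of_ne_zero (den_ne hx) (den_ne hy)

theorem rd_neg {x : ℚ} : ((-x : ℚ) : ZMod p) = -x := Rat.cast_neg x

theorem rd_sub {x y : ℚ} (hx : x ∈ Zp p) (hy : y ∈ Zp p) : ((x - y : ℚ) : ZMod p) = x - y :=
  Rat.cast_sub_of_ne_zero (den_ne hx) (den_ne hy)

theorem rd_pow {x : ℚ} (hx : x ∈ Zp p) (k : ℕ) : ((x ^ k : ℚ) : ZMod p) = (x : ZMod p)^k := by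
  induction k with
  | zero => simp
  | succ k ih => rw [pow_succ, rd_mul (pow_mem hx k) hx, ih, pow_succ]

theorem rd_sum {ι : Type*} (s : Finset ι) (f : ι → ℚ) (h : ∀ i ∈ s, f i ∈ Zp p) :
    ((∑ i ∈ s, f i : ℚ) : ZMod p) = ∑ i ∈ s, ((f i : ℚ) : ZMod p) := by
  classical
  induction s using Finset.induction_on with
  | empty => simp
  | insert a s ha ih =>
    rw [sum_insert ha, sum_insert ha, rd_add (h a (mem_insert_self _ _))
      (sum_mem (fun i hi => h i (mem_insert_of_mem hi))), ih (fun i hi => h i (mem_insert_of_mem hi))]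

theorem rd_prod {ι : Type*} (s : Finset ι) (f : ι → ℚ) (h : ∀ i ∈ s, f i ∈ Zp p) :
    ((∏ i ∈ s, f i : ℚ) : ZMod p) = ∏ i ∈ s, ((f i : ℚ) : ZMod p) := by
  classical
  induction s using Finset.induction_on with
  | empty => simp
  | insert a s ha ih =>
    rw [prod_insert ha, prod_insert ha, rd_mul (h a (mem_insert_self _ _))
      (prod_mem (fun i hi => h i (mem_insert_of_mem hi))), ih (fun i hi => h i (mem_insert_of_mem hi))]

theorem rd_inv {k : ℕ} (hk : ¬ p ∣ k) : (((k : ℚ)⁻¹ : ℚ) : ZMod p) = (k : ZMod p)⁻¹ := by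
  have h1 : (k : ZMod p) ≠ 0 := by rwa [Ne, ZMod.natCast_eq_zero_iff]
  have h2 := rd_mul (p := p) (natCast_Zp k) (inv_Zp hk)
  have hk0 : (k : ℚ) ≠ 0 := by
    have : k ≠ 0 := by rintro rfl; simp at hk
    exact_mod_cast this
  rw [mul_inv_cancel₀ hk0, Rat.cast_one, Rat.cast_natCast] at h2
  exact eq_inv_of_mul_eq_one_right h2.symm

theorem rd_zero {x : ℚ} (hx : x ∈ Zp p) (h : (x : ZMod p) = 0) : x ∈ I p 1 := by
  rw [Rat.cast_def, div_eq_zero_iff] at h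
  rcases h with h | h
  · rw [ZMod.intCast_zmod_eq_zero_iff_dvd] at h
    obtain ⟨c, hc⟩ := h
    refine ⟨(c : ℚ) / x.den, div_Zp (intCast_mem _ c) hx, ?_⟩
    conv_lhs => rw [← Rat.num_div_den x, hc]
    push_cast
    ring
  · exact absurd h (den_ne hx)

/-- congruence from equality of reductions -/
theorem rd_eq {x y : ℚ} (hx : x ∈ Zp p) (hy : y ∈ Zp p) (h : (x : ZMod p) = y) : x - y ∈ I p 1 := by
  apply rd_zero (sub_mem hx hy)
  rw [rd_sub hx hy, h, sub_self]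

/-- product expansion `∏ (1 - x_i) ≡ 1 - Σ x_i`, `x_i ∈ I 2`, modulo `I 4` -/
theorem prod_one_sub {ι : Type*} (s : Finset ι) (f : ι → ℚ) (h : ∀ i ∈ s, f i ∈ I p 2) :
    (∏ i ∈ s, (1 - f i)) - (1 - ∑ i ∈ s, f i) ∈ I p 4 := by
  classical
  induction s using Finset.induction_on with
  | empty => simp
  | insert a s ha ih =>
    rw [prod_insert ha, sum_insert ha]
    have ih' := ih (fun i hi => h i (mem_insert_of_mem hi))
    have ha' := h a (mem_insert_self _ _)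
    have hs : ∑ i ∈ s, f i ∈ I p 2 := sum_mem (fun i hi => h i (mem_insert_of_mem hi))
    have e : (1 - f a) * ∏ i ∈ s, (1 - f i) - (1 - (f a + ∑ i ∈ s, f i))
      = (1 - f a) * ((∏ i ∈ s, (1 - f i)) - (1 - ∑ i ∈ s, f i)) + f a * ∑ i ∈ s, f i := by ring
    rw [e]
    exact add_mem (I_mul_left (sub_mem (one_mem _) (I_Zp ha')) ih') (I_mul ha' hs)

/-- sieving a sum to multiples of `q` -/
theorem sieve (q L B m : ℕ) (hq : 0 < q) (hLB : ∀ o, o < B ↔ q * o < L) (g : ℕ → ℚ)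
    (hg : ∀ o < L, ¬ q ∣ o → g o ∈ I p m) :
    ∑ o ∈ range L, g o - ∑ o ∈ range B, g (q * o) ∈ I p m := by
  have h1 : ∑ o ∈ range B, g (q * o) = ∑ o ∈ (range L).filter (fun o => q ∣ o), g o := by
    symm
    rw [show (range L).filter (fun o => q ∣ o) = (range B).image (fun o => q * o) by
      ext o
      simp only [mem_filter, mem_range, mem_image]
      constructor
      · rintro ⟨h1, c, rfl⟩
        exact ⟨c, (hLB c).mpr h1, rfl⟩
      · rintro ⟨c, hc, rfl⟩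
        exact ⟨(hLB c).mp hc, Dvd.intro _ rfl⟩]
    rw [sum_image]
    intro a _ b _ hab
    exact Nat.eq_of_mul_eq_mul_left hq hab
  rw [h1, ← sum_filter_add_sum_filter_not (range L) (fun o => q ∣ o) g, add_sub_cancel_left]
  apply sum_mem
  intro o ho
  rw [mem_filter, mem_range] at ho
  exact hg o ho.1 ho.2

end
end Pool.Agent.D0H46.SC
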