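import Mathlib
import Pool.Agent.D0H46.SC.Padic

namespace Pool.Agent.D0H46.SC

open Finset Polynomial

section harm
variable {F : Type*} [Field F]

/-- harmonic numbers in a field -/
def Hf (F : Type*) [Field F] (e k : ℕ) : F := ∑ i ∈ range k, (((i + 1 : ℕ) : F)⁻¹)^e

theorem Hf_succ (e k : ℕ) : Hf F e (k+1) = Hf F e k + (((k + 1 : ℕ) : F)⁻¹)^e := by
  unfold Hf; rw [sum_range_succ]

def Wf (F : Type*) [Field F] (K : ℕ) : F := ∑ t ∈ range K, Hf F 1 t * (((t + 1 : ℕ) : F)⁻¹)^2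

def Vf (F : Type*) [Field F] (K : ℕ) : F := ∑ t ∈ range K, Hf F 2 t * ((t + 1 : ℕ) : F)⁻¹

def Df (F : Type*) [Field F] (K : ℕ) : F := ∑ t ∈ range K, Hf F 1 (K - 1 - t) * (((t + 1 : ℕ) : F)⁻¹)^2

theorem stuffle (K : ℕ) : Wf F K + Vf F K + Hf F 3 K = Hf F 1 K * Hf F 2 K := by
  induction K with
  | zero => simp [Wf, Vf, Hf]
  | succ K ih =>
    have h1 : Wf F (K+1) = Wf F K + Hf F 1 K * (((K + 1 : ℕ) : F)⁻¹)^2 := by
      unfold Wf; rw [sum_range_succ]
    have h2 : Vf F (K+1) = Vf F K + Hf F 2 K * ((K + 1 : ℕ) : F)⁻¹ := by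
      unfold Vf; rw [sum_range_succ]
    rw [h1, h2, Hf_succ, Hf_succ, Hf_succ]
    linear_combination ih

theorem shuffle (K : ℕ) (hK : ∀ i : ℕ, 0 < i → i ≤ K → (i : F) ≠ 0) : Df F K = 2 * Wf F K + Vf F K := by
  induction K with
  | zero => simp [Df, Wf, Vf]
  | succ K ih =>
    have ih' := ih (fun i h0 h1 => hK i h0 (by omega))
    have hW : Wf F (K+1) = Wf F K + Hf F 1 K * (((K + 1 : ℕ) : F)⁻¹)^2 := by
      unfold Wf; rw [sum_range_succ]
    have hV : Vf F (K+1) = Vf F K + Hf F 2 K * ((K + 1 : ℕ) : F)⁻¹ := by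
      unfold Vf; rw [sum_range_succ]
    have hK1 : ((K + 1 : ℕ) : F) ≠ 0 := hK (K+1) (by omega) le_rfl
    have hD : Df F (K+1) = Df F K + ∑ t ∈ range K, ((K - t : ℕ) : F)⁻¹ * (((t + 1 : ℕ) : F)⁻¹)^2 := by
      unfold Df
      rw [sum_range_succ]
      have e0 : K + 1 - 1 - K = 0 := by omega
      rw [e0]
      have e1 : Hf F 1 0 = 0 := by simp [Hf]
      rw [e1, zero_mul, add_zero, ← sum_add_distrib]
      apply sum_congr rfl
      intro t ht
      have ht := mem_range.mp ht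
      have e2 : K + 1 - 1 - t = (K - 1 - t) + 1 := by omega
      rw [e2, Hf_succ]
      have e3 : K - 1 - t + 1 = K - t := by omega
      rw [e3, pow_one]
      ring
    have hS : ∑ t ∈ range K, ((K - t : ℕ) : F)⁻¹ * (((t + 1 : ℕ) : F)⁻¹)^2
        = 2 * Hf F 1 K * (((K + 1 : ℕ) : F)⁻¹)^2 + Hf F 2 K * ((K + 1 : ℕ) : F)⁻¹ := by
      have hr : Hf F 1 K = ∑ t ∈ range K, ((K - t : ℕ) : F)⁻¹ := by
        unfold Hf
        rw [← sum_range_reflect]
        apply sum_congr rfl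
        intro t ht
        have ht := mem_range.mp ht
        have : K - 1 - t + 1 = K - t := by omega
        rw [this, pow_one]
      have h2 : 2 * Hf F 1 K = ∑ t ∈ range K, (((K - t : ℕ) : F)⁻¹ + ((t + 1 : ℕ) : F)⁻¹) := by
        rw [sum_add_distrib, ← hr]
        have : ∑ t ∈ range K, ((t + 1 : ℕ) : F)⁻¹ = Hf F 1 K := by
          unfold Hf; apply sum_congr rfl; intro t _; rw [pow_one]
        rw [this]; ring
      rw [h2]
      unfold Hf
      rw [sum_mul, sum_mul, ← sum_add_distrib]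
      apply sum_congr rfl
      intro t ht
      have ht := mem_range.mp ht
      have n1 : ((K - t : ℕ) : F) ≠ 0 := hK (K - t) (by omega) (by omega)
      have n2 : ((t + 1 : ℕ) : F) ≠ 0 := hK (t + 1) (by omega) (by omega)
      have n3 : ((K + 1 : ℕ) : F) = ((K - t : ℕ) : F) + ((t + 1 : ℕ) : F) := by
        rw [← Nat.cast_add]; congr 1; omega
      rw [n3] at hK1 ⊢
      generalize ((K - t : ℕ) : F) = x at *
      generalize ((t + 1 : ℕ) : F) = y at *
      field_simp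
      ring
    rw [hD, hS, ih', hW, hV]
    ring

end harm

theorem split_parity {F : Type*} [AddCommMonoid F] (g : ℕ → F) (P : ℕ) :
    ∑ i ∈ range (2 * P), g i = ∑ v ∈ range P, (g (2 * v) + g (2 * v + 1)) := by
  induction P with
  | zero => simp
  | succ P ih =>
    rw [show 2 * (P + 1) = 2 * P + 1 + 1 by ring, sum_range_succ, sum_range_succ, sum_range_succ, ih, add_assoc]

section modp
variable {p : ℕ} [hp : Fact p.Prime] {P : ℕ}

theorem cast_ne {k : ℕ} (h0 : 0 < k) (h1 : k < p) : (k : ZMod p) ≠ 0 := by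
  rw [Ne, ZMod.natCast_eq_zero_iff]
  intro h
  exact absurd (Nat.le_of_dvd h0 h) (by omega)

/-- `-(x)` for complementary casts -/
theorem cast_compl {x y : ℕ} (h : x + y = p) : (x : ZMod p) = -(y : ZMod p) := by
  have : ((x + y : ℕ) : ZMod p) = 0 := by rw [h]; exact ZMod.natCast_self p
  push_cast at this
  linear_combination this

theorem sumZ {A : Type*} [AddCommMonoid A] (f : ZMod p → A) : ∑ y : ZMod p, f y = ∑ i ∈ range p, f (i : ZMod p) := by
  symm
  apply sum_bij (fun (i : ℕ) _ => (i : ZMod p))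
  · intro i _; exact mem_univ _
  · intro i hi j hj hij
    have h1 := ZMod.val_natCast_of_lt (mem_range.mp hi)
    have h2 := ZMod.val_natCast_of_lt (mem_range.mp hj)
    rw [← h1, ← h2, hij]
  · intro b _
    exact ⟨b.val, mem_range.mpr (ZMod.val_lt b), ZMod.natCast_zmod_val b⟩
  · intro i _; rfl

theorem psum_top : ∑ y : ZMod p, y^(p-1) = -1 := by
  have h1 : ∀ y : ZMod p, y^(p-1) = if y = 0 then 0 else 1 := by
    intro y
    split_ifs with h
    · rw [h, zero_pow]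
      have := hp.out.two_le; omega
    · exact ZMod.pow_card_sub_one_eq_one h
  simp_rw [h1]
  rw [sum_ite]
  simp only [sum_const_zero, zero_add, sum_const, nsmul_eq_mul, mul_one]
  have : (univ.filter (fun y : ZMod p => ¬ y = 0)).card = p - 1 := by
    have h2 : (univ.filter (fun y : ZMod p => ¬ y = 0)) = univ.erase 0 := by
      ext y; simp
    rw [h2, card_erase_of_mem (mem_univ _), card_univ, ZMod.card]
  rw [this, Nat.cast_sub hp.out.one_lt.le]
  simp

theorem psum_low {e : ℕ} (h : e < p - 1) : ∑ y : ZMod p, y^e = 0 := by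
  have := FiniteField.sum_pow_lt_card_sub_one (ZMod p) e (by rw [ZMod.card]; exact h)
  exact this

theorem psum_high {f : ℕ} (h0 : 0 < f) (h : f < p - 1) : ∑ y : ZMod p, y^(p - 1 + f) = 0 := by
  rw [← psum_low h]
  apply sum_congr rfl
  intro y _
  rcases eq_or_ne y 0 with rfl | hy
  · rw [zero_pow (by omega), zero_pow (by omega)]
  · rw [pow_add, ZMod.pow_card_sub_one_eq_one hy, one_mul]

/-- `H_P^{(2)} = 0` -/
theorem H2_zero (hP : p = 2 * P + 1) (hP2 : 2 ≤ P) : Hf (ZMod p) 2 P = 0 := by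
  have h1 : ∑ y : ZMod p, y^(p-3) = 0 := psum_low (by omega)
  rw [sumZ] at h1
  rw [show range p = range (2 * P + 1) by rw [← hP], sum_range_succ', split_parity] at h1
  have h0 : ((0 : ℕ) : ZMod p)^(p-3) = 0 := by
    rw [Nat.cast_zero, zero_pow]; omega
  rw [h0, add_zero] at h1
  -- alternative: use symmetric halves
  have h2 : ∑ i ∈ range (2 * P), ((i + 1 : ℕ) : ZMod p)^(p-3) = 0 := by rw [split_parity]; exact h1
  have h3 : ∀ i : ℕ, i < 2 * P → ((i + 1 : ℕ) : ZMod p)^(p-3) = (((i + 1 : ℕ) : ZMod p)⁻¹)^2 := by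
    intro i hi
    have hn : ((i + 1 : ℕ) : ZMod p) ≠ 0 := cast_ne (by omega) (by omega)
    have := ZMod.pow_card_sub_one_eq_one hn
    rw [show p - 1 = (p - 3) + 2 by omega, pow_add] at this
    rw [inv_pow]
    exact eq_inv_of_mul_eq_one_left this
  rw [two_mul, sum_range_add] at h2
  have h4 : ∑ x ∈ range P, ((P + x + 1 : ℕ) : ZMod p)^(p-3) = ∑ x ∈ range P, ((x + 1 : ℕ) : ZMod p)^(p-3) := by
    rw [← sum_range_reflect]
    apply sum_congr rfl
    intro x hx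
    have hx := mem_range.mp hx
    rw [cast_compl (x := P + (P - 1 - x) + 1) (y := x + 1) (by omega), Even.neg_pow]
    exact ⟨P - 1, by omega⟩
  rw [h4] at h2
  have h5 : ∑ x ∈ range P, ((x + 1 : ℕ) : ZMod p)^(p-3) = Hf (ZMod p) 2 P := by
    unfold Hf
    apply sum_congr rfl
    intro x hx
    exact h3 x (by have := mem_range.mp hx; omega)
  rw [h5] at h2
  have h6 : ((2 : ℕ) : ZMod p) * Hf (ZMod p) 2 P = 0 := by push_cast; linear_combination h2
  rcases mul_eq_zero.mp h6 with h | h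
  · exact absurd h (cast_ne (by omega) (by omega))
  · exact h

/-- reflection of harmonic numbers: `H_{p-1-s} = H_s` -/
theorem H_refl (hp2 : 2 < p) (s : ℕ) (hs : s ≤ p - 1) : Hf (ZMod p) 1 (p - 1 - s) = Hf (ZMod p) 1 s := by
  have hfull : Hf (ZMod p) 1 (p-1) = 0 := by
    have h1 : ∑ y : ZMod p, y^(p-2) = 0 := psum_low (by omega)
    rw [sumZ, show range p = range ((p - 1) + 1) by congr 1; omega, sum_range_succ'] at h1
    rw [Nat.cast_zero, zero_pow (by omega), add_zero] at h1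
    unfold Hf
    rw [← h1]
    apply sum_congr rfl
    intro i hi
    have hi := mem_range.mp hi
    have hn : ((i + 1 : ℕ) : ZMod p) ≠ 0 := cast_ne (by omega) (by omega)
    have := ZMod.pow_card_sub_one_eq_one hn
    rw [show p - 1 = (p - 2) + 1 by omega, pow_succ] at this
    rw [pow_one]
    exact (eq_inv_of_mul_eq_one_left this).symm
  induction s with
  | zero => rw [Nat.sub_zero, hfull]; simp [Hf]
  | succ s ih =>
    have ih' := ih (by omega)
    have e1 : p - 1 - s = (p - 1 - (s+1)) + 1 := by omega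
    rw [e1, Hf_succ] at ih'
    rw [Hf_succ]
    have e2 : ((p - 1 - (s+1) + 1 : ℕ) : ZMod p) = -((s + 1 : ℕ) : ZMod p) := cast_compl (by omega)
    rw [e2, pow_one, inv_neg] at ih'
    rw [pow_one]
    linear_combination ih'

/-- the full double sum -/
noncomputable def Bst (p : ℕ) [Fact p.Prime] : ZMod p := ∑ s ∈ range (p - 1), Hf (ZMod p) 1 s * (((s + 1 : ℕ) : ZMod p)⁻¹)^2

theorem W_shift (K : ℕ) : ∑ t ∈ range K, Hf (ZMod p) 1 (t+1) * (((t + 1 : ℕ) : ZMod p)⁻¹)^2 = Wf (ZMod p) K + Hf (ZMod p) 3 K := by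
  unfold Wf
  have : Hf (ZMod p) 3 K = ∑ t ∈ range K, (((t + 1 : ℕ) : ZMod p)⁻¹)^3 := rfl
  rw [this, ← sum_add_distrib]
  apply sum_congr rfl
  intro t _
  rw [Hf_succ]
  ring

theorem M1 (hP : p = 2 * P + 1) (hP2 : 2 ≤ P) : Bst p = 2 * Wf (ZMod p) P + Hf (ZMod p) 3 P := by
  unfold Bst
  rw [show p - 1 = P + P by omega, sum_range_add]
  have e1 : ∑ x ∈ range P, Hf (ZMod p) 1 (P + x) * (((P + x + 1 : ℕ) : ZMod p)⁻¹)^2
      = ∑ t ∈ range P, Hf (ZMod p) 1 (t+1) * (((t + 1 : ℕ) : ZMod p)⁻¹)^2 := by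
    rw [← sum_range_reflect]
    apply sum_congr rfl
    intro t ht
    have ht := mem_range.mp ht
    have e2 : P + (P - 1 - t) = p - 1 - (t + 1) := by omega
    rw [e2, H_refl (by omega) _ (by omega)]
    have e3 : ((p - 1 - (t + 1) + 1 : ℕ) : ZMod p) = -((t + 1 : ℕ) : ZMod p) := cast_compl (by omega)
    rw [e3]
    congr 1
    rw [inv_neg, neg_sq]
  rw [e1, W_shift]
  unfold Wf
  ring

/-- odd harmonic numbers -/
noncomputable def Of (p : ℕ) [Fact p.Prime] (v : ℕ) : ZMod p := ∑ j ∈ range v, ((2 * j + 1 : ℕ) : ZMod p)⁻¹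

theorem H_two (v : ℕ) (hv : 2 * v < p) : Hf (ZMod p) 1 (2 * v) = Hf (ZMod p) 1 v * 2⁻¹ + Of p v := by
  induction v with
  | zero => simp [Hf, Of]
  | succ v ih =>
    have ih' := ih (by omega)
    rw [show 2 * (v + 1) = 2 * v + 1 + 1 by ring, Hf_succ, Hf_succ, Hf_succ, ih']
    unfold Of
    rw [sum_range_succ]
    have : ((2 * v + 1 + 1 : ℕ) : ZMod p) = 2 * ((v + 1 : ℕ) : ZMod p) := by push_cast; ring
    rw [this, mul_inv]
    ring

theorem Of_eq (hP : p = 2 * P + 1) (v : ℕ) (hv : v ≤ P) :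
    Of p v = - 2⁻¹ * (Hf (ZMod p) 1 P - Hf (ZMod p) 1 (P - v)) := by
  induction v with
  | zero => simp [Of]
  | succ v ih =>
    have ih' := ih (by omega)
    unfold Of at ih' ⊢
    rw [sum_range_succ, ih']
    have e1 : P - v = (P - (v+1)) + 1 := by omega
    rw [e1, Hf_succ]
    have e2 : ((2 * v + 1 : ℕ) : ZMod p) = - ((2 * (P - (v + 1) + 1) : ℕ) : ZMod p) := cast_compl (by omega)
    rw [e2, inv_neg, Nat.cast_mul, mul_inv, pow_one]
    push_cast
    ring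

/-- `E = Σ H_v/(2v+1)^2` -/
noncomputable def Ef (p : ℕ) [Fact p.Prime] (P : ℕ) : ZMod p := ∑ v ∈ range P, Hf (ZMod p) 1 v * (((2 * v + 1 : ℕ) : ZMod p)⁻¹)^2

theorem odd_inv (hP : p = 2 * P + 1) (t : ℕ) (ht : t < P) :
    (((2 * (P - 1 - t) + 1 : ℕ) : ZMod p)⁻¹)^2 = 4⁻¹ * (((t + 1 : ℕ) : ZMod p)⁻¹)^2 := by
  have e2 : ((2 * (P - 1 - t) + 1 : ℕ) : ZMod p) = - ((2 * (t + 1) : ℕ) : ZMod p) := cast_compl (by omega)
  rw [e2, inv_neg, Nat.cast_mul, mul_inv]
  have : (4 : ZMod p) = 2 * 2 := by norm_num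
  rw [this, mul_inv]
  push_cast
  ring

theorem E_eq (hP : p = 2 * P + 1) : Ef p P = 4⁻¹ * Df (ZMod p) P := by
  unfold Ef Df
  rw [← sum_range_reflect, mul_sum]
  apply sum_congr rfl
  intro t ht
  have ht := mem_range.mp ht
  rw [odd_inv hP t ht]
  ring

theorem M2 (hP : p = 2 * P + 1) (hP2 : 2 ≤ P) :
    Bst p = 4⁻¹ * Df (ZMod p) P + 4⁻¹ * Wf (ZMod p) P + 8⁻¹ * Hf (ZMod p) 3 P := by
  have h2 : (2 : ZMod p) ≠ 0 := by
    have := cast_ne (p := p) (k := 2) (by omega) (by omega)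
    exact_mod_cast this
  have h20 := H2_zero hP hP2
  have e4 : (4 : ZMod p) = 2 * 2 := by norm_num
  have e8 : (8 : ZMod p) = 2 * 2 * 2 := by norm_num
  unfold Bst
  rw [show p - 1 = 2 * P by omega, split_parity, sum_add_distrib]
  have hTo : ∑ v ∈ range P, Hf (ZMod p) 1 (2 * v) * (((2 * v + 1 : ℕ) : ZMod p)⁻¹)^2
      = 2⁻¹ * Ef p P + 8⁻¹ * (Wf (ZMod p) P + Hf (ZMod p) 3 P) := by
    have h1 : ∀ v ∈ range P, Hf (ZMod p) 1 (2 * v) * (((2 * v + 1 : ℕ) : ZMod p)⁻¹)^2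
        = 2⁻¹ * (Hf (ZMod p) 1 v * (((2 * v + 1 : ℕ) : ZMod p)⁻¹)^2) + Of p v * (((2 * v + 1 : ℕ) : ZMod p)⁻¹)^2 := by
      intro v hv
      have hv := mem_range.mp hv
      rw [H_two v (by omega)]
      ring
    rw [sum_congr rfl h1, sum_add_distrib, ← mul_sum]
    congr 1
    rw [← sum_range_reflect]
    have h3 : ∀ t ∈ range P, Of p (P - 1 - t) * (((2 * (P - 1 - t) + 1 : ℕ) : ZMod p)⁻¹)^2
        = 8⁻¹ * (Hf (ZMod p) 1 (t+1) * (((t + 1 : ℕ) : ZMod p)⁻¹)^2) - 8⁻¹ * Hf (ZMod p) 1 P * (((t + 1 : ℕ) : ZMod p)⁻¹)^2 := by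
      intro t ht
      have ht := mem_range.mp ht
      rw [odd_inv hP t ht, Of_eq hP _ (by omega), show P - (P - 1 - t) = t + 1 by omega, e4, e8]
      simp only [mul_inv]
      ring
    rw [sum_congr rfl h3, sum_sub_distrib, ← mul_sum, ← mul_sum, W_shift]
    have h4 : ∑ t ∈ range P, (((t + 1 : ℕ) : ZMod p)⁻¹)^2 = Hf (ZMod p) 2 P := rfl
    rw [h4, h20]
    ring
  have hTe : ∑ v ∈ range P, Hf (ZMod p) 1 (2 * v + 1) * (((2 * v + 1 + 1 : ℕ) : ZMod p)⁻¹)^2
      = 8⁻¹ * Wf (ZMod p) P + 8⁻¹ * Df (ZMod p) P := by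
    have h1 : ∀ v ∈ range P, Hf (ZMod p) 1 (2 * v + 1) * (((2 * v + 1 + 1 : ℕ) : ZMod p)⁻¹)^2
        = 8⁻¹ * (Hf (ZMod p) 1 v * (((v + 1 : ℕ) : ZMod p)⁻¹)^2)
          + 8⁻¹ * (Hf (ZMod p) 1 (P - 1 - v) * (((v + 1 : ℕ) : ZMod p)⁻¹)^2)
          - 8⁻¹ * Hf (ZMod p) 1 P * (((v + 1 : ℕ) : ZMod p)⁻¹)^2 := by
      intro v hv
      have hv := mem_range.mp hv
      have hO : Of p (v+1) = Of p v + ((2 * v + 1 : ℕ) : ZMod p)⁻¹ := by unfold Of; rw [sum_range_succ]
      have hO2 := Of_eq hP (v+1) (by omega)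
      rw [show P - (v+1) = P - 1 - v by omega] at hO2
      have hc : ((2 * v + 1 + 1 : ℕ) : ZMod p) = 2 * ((v + 1 : ℕ) : ZMod p) := by push_cast; ring
      rw [Hf_succ, H_two v (by omega), pow_one, hc, mul_inv, e8, mul_inv, mul_inv]
      have : Hf (ZMod p) 1 v * 2⁻¹ + Of p v + ((2 * v + 1 : ℕ) : ZMod p)⁻¹ = Hf (ZMod p) 1 v * 2⁻¹ + Of p (v+1) := by
        rw [hO]; ring
      rw [this, hO2]
      ring
    rw [sum_congr rfl h1, sum_sub_distrib, sum_add_distrib, ← mul_sum, ← mul_sum, ← mul_sum]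
    have h4 : ∑ t ∈ range P, (((t + 1 : ℕ) : ZMod p)⁻¹)^2 = Hf (ZMod p) 2 P := rfl
    rw [h4, h20]
    unfold Wf Df
    ring
  rw [hTo, hTe, E_eq hP, e4, e8]
  simp only [mul_inv]
  field_simp
  ring

theorem three_ne (hP : p = 2 * P + 1) (hP2 : 2 ≤ P) : (3 : ZMod p) ≠ 0 := by
  have := cast_ne (p := p) (k := 3) (by omega) (by omega)
  exact_mod_cast this

theorem two_ne (hP : p = 2 * P + 1) (hP2 : 2 ≤ P) : (2 : ZMod p) ≠ 0 := by
  have := cast_ne (p := p) (k := 2) (by omega) (by omega)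
  exact_mod_cast this

/-- relations to the double sum -/
theorem H3_eq (hP : p = 2 * P + 1) (hP2 : 2 ≤ P) : Hf (ZMod p) 3 P = -2 * Bst p := by
  have h1 := M1 hP hP2
  have h2 := M2 hP hP2
  have h3 := shuffle (F := ZMod p) P (fun i h0 h1 => cast_ne h0 (by omega))
  have h4 := stuffle (F := ZMod p) P
  rw [H2_zero hP hP2, mul_zero] at h4
  have n2 := two_ne hP hP2
  have n3 := three_ne hP hP2
  have e4 : (4 : ZMod p) = 2 * 2 := by norm_num
  have e8 : (8 : ZMod p) = 2 * 2 * 2 := by norm_num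
  rw [e4, e8] at h2
  simp only [mul_inv] at h2
  field_simp at h2
  have : (3 : ZMod p) * (Hf (ZMod p) 3 P + 2 * Bst p) = 0 := by
    linear_combination h2 + 2 * h3 + 2 * h4 - 2 * h1
  rcases mul_eq_zero.mp this with h | h
  · exact absurd h n3
  · linear_combination h

theorem E_val (hP : p = 2 * P + 1) (hP2 : 2 ≤ P) : 8 * Ef p P = 7 * Bst p := by
  have h1 := M1 hP hP2
  have h3 := shuffle (F := ZMod p) P (fun i h0 h1 => cast_ne h0 (by omega))
  have h4 := stuffle (F := ZMod p) P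
  rw [H2_zero hP hP2, mul_zero] at h4
  have h5 := H3_eq hP hP2
  have n2 := two_ne hP hP2
  have h6 : 4 * Ef p P = Df (ZMod p) P := by
    rw [E_eq hP]
    have e4 : (4 : ZMod p) = 2 * 2 := by norm_num
    rw [e4]
    simp only [mul_inv]
    field_simp
  linear_combination 2 * h6 + 2 * h3 + 2 * h4 - h1 - 3 * h5

end modp
end Pool.Agent.D0H46.SC
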