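import Mathlib
import Pool.Agent.D0H46.SC.ModP

namespace Pool.Agent.D0H46.SC

open Finset Polynomial

section fld
variable {F : Type*} [Field F]

def PiF (x : F) (k : ℕ) : F := ∏ j ∈ range k, ((((j : ℕ) : F) - x) * ((j : F) + x + 1) / ((j : F) + 1)^2)

def QF (x : F) (k : ℕ) : F := ∏ j ∈ range k, ((((j : ℕ) : F) + 1 - x) * ((j : F) + 1 + x) / ((j : F) + 1)^2)

theorem PiQ1 (x : F) (k : ℕ) : PiF x (k+1) = QF x k * ((-x) * (x + k + 1) / ((k : F) + 1)^2) := by
  unfold PiF QF
  rw [prod_div_distrib, prod_mul_distrib, prod_div_distrib, prod_mul_distrib]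
  rw [prod_range_succ' (fun j : ℕ => ((j : F) - x)), prod_range_succ (fun j : ℕ => ((j : F) + x + 1)),
    prod_range_succ (fun j : ℕ => (((j : F) + 1)^2))]
  have e1 : ∏ j ∈ range k, (((j + 1 : ℕ) : F) - x) = ∏ j ∈ range k, ((j : F) + 1 - x) := by
    apply prod_congr rfl; intro j _; push_cast; ring
  have e2 : ∏ j ∈ range k, ((j : F) + x + 1) = ∏ j ∈ range k, ((j : F) + 1 + x) := by
    apply prod_congr rfl; intro j _; ring
  rw [e1, e2]
  push_cast
  rw [div_mul_div_comm]
  congr 1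
  ring

theorem PiQ2 (x : F) (k : ℕ) : PiF (x-1) (k+1) = QF x k * (x * (k + 1 - x) / ((k : F) + 1)^2) := by
  unfold PiF QF
  rw [prod_div_distrib, prod_mul_distrib, prod_div_distrib, prod_mul_distrib]
  rw [prod_range_succ (fun j : ℕ => ((j : F) - (x - 1))), prod_range_succ' (fun j : ℕ => ((j : F) + (x - 1) + 1)),
    prod_range_succ (fun j : ℕ => (((j : F) + 1)^2))]
  have e1 : ∏ j ∈ range k, ((j : F) - (x - 1)) = ∏ j ∈ range k, ((j : F) + 1 - x) := by
    apply prod_congr rfl; intro j _; ring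
  have e2 : ∏ j ∈ range k, (((j + 1 : ℕ) : F) + (x - 1) + 1) = ∏ j ∈ range k, ((j : F) + 1 + x) := by
    apply prod_congr rfl; intro j _; push_cast; ring
  rw [e1, e2]
  push_cast
  rw [div_mul_div_comm]
  congr 1
  ring

theorem teleF (x : F) (hx : x ≠ 0) (K : ℕ) (hK : ∀ i : ℕ, i < K → (i : F) + 1 ≠ 0) :
    ∑ k ∈ range K, ((k : F) + 1)⁻¹ * (PiF x (k+1) - PiF (x-1) (k+1)) = 2 / x * (QF x K - 1) := by
  induction K with
  | zero => simp [QF]
  | succ K ih =>
    rw [sum_range_succ, ih (fun i hi => hK i (by omega)), PiQ1, PiQ2]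
    have hQ : QF x (K+1) = QF x K * (((K : F) + 1 - x) * ((K : F) + 1 + x) / ((K : F) + 1)^2) := by
      unfold QF; rw [prod_range_succ]
    rw [hQ]
    have hk := hK K (by omega)
    field_simp
    ring

theorem g_eq (P : ℕ) (hP : ∀ i : ℕ, i < P → (i : F) + 1 ≠ 0) (v : ℕ) (hv : v ≤ P) :
    ∑ k ∈ range P, ((k : F) + 1)⁻¹ * PiF (v : F) (k+1) = -2 * Hf F 1 v := by
  induction v with
  | zero =>
    have : ∀ k ∈ range P, ((k : F) + 1)⁻¹ * PiF ((0 : ℕ) : F) (k+1) = 0 := by
      intro k _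
      unfold PiF
      rw [prod_range_succ']
      simp
    rw [sum_congr rfl this]
    simp [Hf]
  | succ v ih =>
    have ih' := ih (by omega)
    have hx : ((v : F) + 1) ≠ 0 := hP v (by omega)
    have h := teleF ((v : F) + 1) hx P hP
    have hQ : QF ((v : F) + 1) P = 0 := by
      unfold QF
      apply prod_eq_zero (mem_range.mpr (show v < P by omega))
      simp
    rw [hQ, add_sub_cancel_right] at h
    have h2 : ∑ k ∈ range P, ((k : F) + 1)⁻¹ * (PiF ((v : F) + 1) (k+1) - PiF (v : F) (k+1))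
        = ∑ k ∈ range P, ((k : F) + 1)⁻¹ * PiF ((v : F) + 1) (k+1) - ∑ k ∈ range P, ((k : F) + 1)⁻¹ * PiF (v : F) (k+1) := by
      rw [← sum_sub_distrib]
      apply sum_congr rfl; intro k _; ring
    rw [h2, ih'] at h
    rw [Hf_succ, pow_one]
    push_cast
    have : ∑ k ∈ range P, ((k : F) + 1)⁻¹ * PiF ((v : F) + 1) (k+1) = 2 / ((v : F) + 1) * (0 - 1) + -2 * Hf F 1 v := by
      linear_combination h
    rw [this]
    field_simp
    ring

/-- linear coefficients of a product of linear factors -/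
theorem coeff_prod (c b : ℕ → F) (k : ℕ) :
    (∏ j ∈ range k, (C (c j) * (1 - C (b j) * X) : F[X])).coeff 0 = ∏ j ∈ range k, c j ∧
    (∏ j ∈ range k, (C (c j) * (1 - C (b j) * X) : F[X])).coeff 1 = - (∏ j ∈ range k, c j) * ∑ j ∈ range k, b j := by
  induction k with
  | zero => simp [coeff_one]
  | succ k ih =>
    obtain ⟨h0, h1⟩ := ih
    rw [prod_range_succ, prod_range_succ, sum_range_succ]
    set Pk := (∏ j ∈ range k, (C (c j) * (1 - C (b j) * X) : F[X])) with hPk
    have e : Pk * (C (c k) * (1 - C (b k) * X)) = C (c k) * Pk - C (c k * b k) * (Pk * X) := by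
      rw [C_mul]; ring
    rw [e, coeff_sub, coeff_sub, coeff_C_mul, coeff_C_mul, coeff_C_mul, coeff_C_mul, h0, h1]
    have e0 : (Pk * X).coeff 0 = 0 := by simp
    have e1 : (Pk * X).coeff 1 = Pk.coeff 0 := by
      exact coeff_mul_X Pk 0
    rw [e0, e1, h0]
    constructor <;> ring

theorem natDegree_fac (c b : F) : (C c * (1 - C b * X) : F[X]).natDegree ≤ 1 := by
  have : (C c * (1 - C b * X) : F[X]) = C (-(c * b)) * X + C c := by
    rw [C_neg, C_mul]; ring
  rw [this]
  exact natDegree_linear_le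

end fld

section modp
variable {p : ℕ} [hp : Fact p.Prime] {P : ℕ}

noncomputable def cc (p : ℕ) [Fact p.Prime] (j : ℕ) : ZMod p := ((2 * (j : ZMod p) + 1) / (2 * j + 2))^2

noncomputable def bb (p : ℕ) [Fact p.Prime] (j : ℕ) : ZMod p := ((2 * (j : ZMod p) + 1)^2)⁻¹

noncomputable def GG (p : ℕ) [Fact p.Prime] (P : ℕ) : (ZMod p)[X] :=
  ∑ k ∈ range P, C (((k : ZMod p) + 1)⁻¹) * ∏ j ∈ range (k+1), (C (cc p j) * (1 - C (bb p j) * X))

/-- the sum `Σ a_k^2 O_k / k` mod p -/
noncomputable def F1 (p : ℕ) [Fact p.Prime] (P : ℕ) : ZMod p :=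
  ∑ k ∈ range P, ((k : ZMod p) + 1)⁻¹ * ((∏ j ∈ range (k+1), cc p j) * ∑ j ∈ range (k+1), bb p j)

theorem GG_deg : (GG p P).natDegree ≤ P := by
  unfold GG
  apply natDegree_sum_le_of_forall_le
  intro k hk
  have hk := mem_range.mp hk
  apply (natDegree_C_mul_le _ _).trans
  apply (natDegree_prod_le _ _).trans
  calc ∑ i ∈ range (k+1), (C (cc p i) * (1 - C (bb p i) * X) : (ZMod p)[X]).natDegree
      ≤ ∑ i ∈ range (k+1), 1 := sum_le_sum (fun i _ => natDegree_fac _ _)
    _ = k + 1 := by simp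
    _ ≤ P := by omega

theorem GG_coeff : (GG p P).coeff 1 = - F1 p P := by
  unfold GG F1
  rw [finsetSum_coeff, ← sum_neg_distrib]
  apply sum_congr rfl
  intro k _
  rw [coeff_C_mul, (coeff_prod (cc p) (bb p) (k+1)).2]
  ring

theorem GG_eval (hP : p = 2 * P + 1) (v : ℕ) (hv : v < P) :
    (GG p P).eval (((2 * v + 1 : ℕ) : ZMod p)^2) = -2 * Hf (ZMod p) 1 v := by
  have hne : ∀ i : ℕ, i < P → (i : ZMod p) + 1 ≠ 0 := by
    intro i hi
    have := cast_ne (p := p) (k := i + 1) (by omega) (by omega)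
    push_cast at this
    exact this
  rw [← g_eq P hne v hv.le]
  unfold GG
  rw [eval_finsetSum]
  apply sum_congr rfl
  intro k hk
  have hk := mem_range.mp hk
  rw [eval_mul, eval_C, eval_prod]
  congr 1
  unfold PiF
  apply prod_congr rfl
  intro j hj
  have hj := mem_range.mp hj
  simp only [eval_mul, eval_C, eval_sub, eval_one, eval_X]
  unfold cc bb
  have h1 : (2 * (j : ZMod p) + 1) ≠ 0 := by
    have := cast_ne (p := p) (k := 2 * j + 1) (by omega) (by omega)
    push_cast at this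
    exact this
  have h2 := hne j (by omega)
  have h3 : (2 : ZMod p) ≠ 0 := by
    have := cast_ne (p := p) (k := 2) (by omega) (by omega)
    exact_mod_cast this
  have h4 : (2 * (j : ZMod p) + 2) ≠ 0 := by
    have : (2 * (j : ZMod p) + 2) = 2 * ((j : ZMod p) + 1) := by ring
    rw [this]; exact mul_ne_zero h3 h2
  push_cast
  field_simp
  ring

theorem M4 (hP : p = 2 * P + 1) (hP2 : 2 ≤ P) : F1 p P = -4 * Ef p P := by
  -- power sum extraction
  have h1 : ∑ y : ZMod p, y^(p-3) * (GG p P).eval (y^2) = F1 p P := by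
    have e1 : ∀ y : ZMod p, y^(p-3) * (GG p P).eval (y^2) = ∑ i ∈ range (P+1), (GG p P).coeff i * y^(p - 3 + 2 * i) := by
      intro y
      rw [eval_eq_sum_range' (n := P+1) (by have := GG_deg (p := p) (P := P); omega), mul_sum]
      apply sum_congr rfl
      intro i _
      rw [pow_add, pow_mul]; ring
    simp_rw [e1]
    rw [sum_comm]
    simp_rw [← mul_sum]
    rw [sum_eq_single 1]
    · rw [show p - 3 + 2 * 1 = p - 1 by omega, psum_top, GG_coeff]; ring
    · intro i hi hi1
      have hi := mem_range.mp hi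
      rcases Nat.eq_zero_or_pos i with rfl | h0
      · rw [mul_zero, add_zero, psum_low (by omega), mul_zero]
      · have : p - 3 + 2 * i = p - 1 + (2 * i - 2) := by omega
        rw [this, psum_high (by omega) (by omega), mul_zero]
    · intro h
      exact absurd (mem_range.mpr (by omega)) h
  rw [← h1, sumZ, show range p = range (2 * P + 1) by rw [← hP], sum_range_succ', split_parity]
  have h0 : ((0 : ℕ) : ZMod p)^(p-3) = 0 := by
    rw [Nat.cast_zero, zero_pow]; omega
  rw [h0, zero_mul, add_zero, sum_add_distrib]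
  have e2 : ∑ x ∈ range P, ((2 * x + 1 + 1 : ℕ) : ZMod p)^(p-3) * (GG p P).eval (((2 * x + 1 + 1 : ℕ) : ZMod p)^2)
      = ∑ x ∈ range P, ((2 * x + 1 : ℕ) : ZMod p)^(p-3) * (GG p P).eval (((2 * x + 1 : ℕ) : ZMod p)^2) := by
    rw [← sum_range_reflect]
    apply sum_congr rfl
    intro x hx
    have hx := mem_range.mp hx
    have e3 : ((2 * (P - 1 - x) + 1 + 1 : ℕ) : ZMod p) = - ((2 * x + 1 : ℕ) : ZMod p) := cast_compl (by omega)
    rw [e3, neg_sq, Even.neg_pow]
    exact ⟨P - 1, by omega⟩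
  rw [e2, ← two_mul]
  have e4 : ∀ x ∈ range P, ((2 * x + 1 : ℕ) : ZMod p)^(p-3) * (GG p P).eval (((2 * x + 1 : ℕ) : ZMod p)^2)
      = -2 * (Hf (ZMod p) 1 x * (((2 * x + 1 : ℕ) : ZMod p)⁻¹)^2) := by
    intro x hx
    have hx := mem_range.mp hx
    rw [GG_eval hP x hx]
    have hn : ((2 * x + 1 : ℕ) : ZMod p) ≠ 0 := cast_ne (by omega) (by omega)
    have := ZMod.pow_card_sub_one_eq_one hn
    rw [show p - 1 = (p - 3) + 2 by omega, pow_add] at this
    have h5 : ((2 * x + 1 : ℕ) : ZMod p)^(p-3) = (((2 * x + 1 : ℕ) : ZMod p)⁻¹)^2 := by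
      rw [inv_pow]
      exact eq_inv_of_mul_eq_one_left this
    rw [h5]; ring
  rw [sum_congr rfl e4, ← mul_sum]
  unfold Ef
  ring

/-- `B_i` is `p`-integral for `i ≤ p-2` -/
theorem bern_int (i : ℕ) (hi : i + 2 ≤ p) : _root_.bernoulli i ∈ Zp p := by
  induction i using Nat.strong_induction_on with
  | _ i ih =>
    rcases Nat.eq_zero_or_pos i with rfl | h0
    · rw [_root_.bernoulli_zero]; exact one_mem _
    · have h := _root_.sum_bernoulli (i+1)
      rw [if_neg (by omega), sum_range_succ] at h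
      have hc : ((i + 1).choose i : ℚ) = ((i + 1 : ℕ) : ℚ) := by
        rw [Nat.choose_succ_self_right]
      rw [hc] at h
      have hne : ((i + 1 : ℕ) : ℚ) ≠ 0 := by positivity
      have e : _root_.bernoulli i = (-∑ k ∈ range i, ((i + 1).choose k : ℚ) * _root_.bernoulli k) / ((i + 1 : ℕ) : ℚ) := by
        rw [eq_div_iff hne]
        linear_combination h
      rw [e]
      apply div_Zp
      · apply neg_mem
        apply sum_mem
        intro k hk
        have hk := mem_range.mp hk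
        exact mul_mem (natCast_Zp _) (ih k hk (by omega))
      · intro hd
        have := Nat.le_of_dvd (by omega) hd
        omega

/-- `B* = B_{p-3}` mod p -/
theorem M5 (hP : p = 2 * P + 1) (hP2 : 2 ≤ P) : Bst p = ((_root_.bernoulli (p - 3) : ℚ) : ZMod p) := by
  have hp1 : ((p - 1 : ℕ) : ZMod p) = -1 := by
    rw [Nat.cast_sub hp.out.one_lt.le]; simp
  -- Faulhaber reduced mod p
  have hF : ∀ n : ℕ, ∑ k ∈ range n, (k : ZMod p)^(p-2)
      = ∑ i ∈ range (p-1), ((_root_.bernoulli i : ℚ) : ZMod p) * ((p-1).choose i : ZMod p) * (n : ZMod p)^(p - 1 - i) * (-1) := by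
    intro n
    have h := sum_range_pow n (p-2)
    have h2 : ((∑ k ∈ range n, (k : ℚ)^(p-2) : ℚ) : ZMod p) = _ := congrArg (fun x : ℚ => (x : ZMod p)) h
    rw [rd_sum _ _ (fun i _ => pow_mem (natCast_Zp i) _)] at h2
    have e1 : ∀ i ∈ range n, (((i : ℚ)^(p-2) : ℚ) : ZMod p) = (i : ZMod p)^(p-2) := by
      intro i _
      rw [rd_pow (natCast_Zp i), Rat.cast_natCast]
    rw [sum_congr rfl e1] at h2
    have e3 : p - 2 + 1 = p - 1 := by omega
    rw [e3] at h2
    have hnd : ¬ p ∣ (p - 1) := by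
      intro hd
      have := Nat.le_of_dvd (by omega) hd
      omega
    have e4 : ((p - 2 : ℕ) : ℚ) + 1 = ((p - 1 : ℕ) : ℚ) := by
      rw [← e3]; push_cast; ring
    have hterm : ∀ i ∈ range (p-1), (_root_.bernoulli i * ((p-1).choose i : ℚ) * (n : ℚ)^(p - 1 - i) / (((p - 2 : ℕ) : ℚ) + 1)) ∈ Zp p := by
      intro i hi
      have hi := mem_range.mp hi
      rw [e4]
      exact div_Zp (mul_mem (mul_mem (bern_int i (by omega)) (natCast_Zp _)) (pow_mem (natCast_Zp _) _)) hnd
    rw [rd_sum _ _ hterm] at h2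
    rw [h2]
    apply sum_congr rfl
    intro i hi
    have hi := mem_range.mp hi
    rw [e4, div_eq_mul_inv, rd_mul (mul_mem (mul_mem (bern_int i (by omega)) (natCast_Zp _)) (pow_mem (natCast_Zp _) _)) (inv_Zp hnd),
      rd_mul (mul_mem (bern_int i (by omega)) (natCast_Zp _)) (pow_mem (natCast_Zp _) _),
      rd_mul (bern_int i (by omega)) (natCast_Zp _), rd_pow (natCast_Zp _), rd_inv hnd, hp1, Rat.cast_natCast, Rat.cast_natCast]
    congr 1
    norm_num
  -- rewrite Bst as a sum over all of ZMod p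
  have h1 : Bst p = ∑ y : ZMod p, y^(p-3) * ∑ i ∈ range (p-1), ((_root_.bernoulli i : ℚ) : ZMod p) * ((p-1).choose i : ZMod p) * y^(p - 1 - i) * (-1) := by
    rw [sumZ, show range p = range ((p - 1) + 1) by congr 1; omega, sum_range_succ']
    have h0 : ((0 : ℕ) : ZMod p)^(p-3) = 0 := by
      rw [Nat.cast_zero, zero_pow]; omega
    rw [h0, zero_mul, add_zero]
    unfold Bst
    apply sum_congr rfl
    intro s hs
    have hs := mem_range.mp hs
    rw [← hF (s+1)]
    have hn : ((s + 1 : ℕ) : ZMod p) ≠ 0 := cast_ne (by omega) (by omega)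
    have := ZMod.pow_card_sub_one_eq_one hn
    rw [show p - 1 = (p - 3) + 2 by omega, pow_add] at this
    have h5 : ((s + 1 : ℕ) : ZMod p)^(p-3) = (((s + 1 : ℕ) : ZMod p)⁻¹)^2 := by
      rw [inv_pow]
      exact eq_inv_of_mul_eq_one_left this
    rw [h5, mul_comm]
    congr 1
    rw [sum_range_succ', Nat.cast_zero, zero_pow (by omega), add_zero]
    unfold Hf
    apply sum_congr rfl
    intro i hi
    have hi := mem_range.mp hi
    have hn : ((i + 1 : ℕ) : ZMod p) ≠ 0 := cast_ne (by omega) (by omega)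
    have := ZMod.pow_card_sub_one_eq_one hn
    rw [show p - 1 = (p - 2) + 1 by omega, pow_succ] at this
    rw [pow_one]
    exact (eq_inv_of_mul_eq_one_left this).symm
  have h2 : Bst p = ∑ i ∈ range (p-1), ((_root_.bernoulli i : ℚ) : ZMod p) * ((p-1).choose i : ZMod p) * (-1) * ∑ y : ZMod p, y^(p - 3 + (p - 1 - i)) := by
    rw [h1]
    simp_rw [mul_sum]
    rw [sum_comm]
    apply sum_congr rfl
    intro i _
    apply sum_congr rfl
    intro y _
    rw [pow_add]; ring
  rw [h2, sum_eq_single (p-3)]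
  · rw [show p - 3 + (p - 1 - (p - 3)) = p - 1 by omega, psum_top]
    have hch : (p - 1).choose (p - 3) = P * (2 * P - 1) := by
      rw [← Nat.choose_symm (by omega : p - 3 ≤ p - 1), show p - 1 - (p - 3) = 2 by omega, Nat.choose_two_right,
        show p - 1 = 2 * P by omega, mul_assoc, Nat.mul_div_cancel_left _ (by norm_num)]
    rw [hch]
    have e1 : (2 : ZMod p) * (P : ZMod p) = -1 := by
      have := hp1
      rw [show p - 1 = 2 * P by omega] at this
      push_cast at this
      exact this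
    have e2 : ((2 * P - 1 : ℕ) : ZMod p) = -2 := by
      rw [Nat.cast_sub (by omega)]
      push_cast
      rw [e1]; norm_num
    push_cast [e2]
    linear_combination (-((_root_.bernoulli (p - 3) : ℚ) : ZMod p)) * e1
  · intro i hi hne
    have hi := mem_range.mp hi
    rcases Nat.lt_or_ge i (p - 3) with h | h
    · rw [show p - 3 + (p - 1 - i) = p - 1 + (p - 3 - i) by omega, psum_high (by omega) (by omega), mul_zero]
    · have : i = p - 2 := by omega
      rw [this, show p - 3 + (p - 1 - (p - 2)) = p - 2 by omega, psum_low (by omega), mul_zero]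
  · intro h
    exact absurd (mem_range.mpr (by omega)) h

end modp
end Pool.Agent.D0H46.SC
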