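import Mathlib
import Pool.Agent.D0H46.SC.Exact
import Pool.Agent.D0H46.SC.ModP2

namespace Pool.Agent.D0H46.SC

open Finset

section
variable {p : ℕ} [hp : Fact p.Prime] {P : ℕ}

/-- `H^{(e)}_K` over `ℚ` -/
def Hq (e K : ℕ) : ℚ := ∑ j ∈ range K, (((j + 1 : ℕ) : ℚ)⁻¹)^e

theorem nd {k : ℕ} (h0 : 0 < k) (h1 : k < p) : ¬ p ∣ k := fun h => by
  have := Nat.le_of_dvd h0 h; omega

theorem Hq_Zp (e K : ℕ) (hK : K < p) : Hq e K ∈ Zp p := by
  unfold Hq
  apply sum_mem
  intro j hj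
  have hj := mem_range.mp hj
  exact pow_mem (inv_Zp (nd (by omega) (by omega))) _

theorem rd_Hq (e K : ℕ) (hK : K < p) : ((Hq e K : ℚ) : ZMod p) = Hf (ZMod p) e K := by
  unfold Hq Hf
  rw [rd_sum]
  · apply sum_congr rfl
    intro j hj
    have hj := mem_range.mp hj
    rw [rd_pow (inv_Zp (nd (by omega) (by omega))), rd_inv (nd (by omega) (by omega))]
  · intro j hj
    have hj := mem_range.mp hj
    exact pow_mem (inv_Zp (nd (by omega) (by omega))) _

theorem compl_sq (j : ℕ) (h0 : 0 < j) (h1 : j < p) :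
    (((p - j : ℕ) : ℚ)⁻¹)^2 - (((j : ℚ)⁻¹)^2 + 2 * p * ((j : ℚ)⁻¹)^3) ∈ I p 2 := by
  have hj : (j : ℚ) ≠ 0 := by positivity
  have hpj : ((p - j : ℕ) : ℚ) ≠ 0 := by
    have : p - j ≠ 0 := by omega
    exact_mod_cast this
  refine ⟨(3 * j - 2 * p) * (((j : ℚ)⁻¹)^3 * (((p - j : ℕ) : ℚ)⁻¹)^2), ?_, ?_⟩
  · apply mul_mem
    · apply sub_mem
      · exact mul_mem (by exact_mod_cast natCast_Zp (p := p) 3) (natCast_Zp _)
      · exact mul_mem (by exact_mod_cast natCast_Zp (p := p) 2) (natCast_Zp _)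
    · exact mul_mem (pow_mem (inv_Zp (nd h0 h1)) _) (pow_mem (inv_Zp (nd (by omega) (by omega))) _)
  · have e : (p : ℚ) = ((p - j : ℕ) : ℚ) + j := by
      rw [Nat.cast_sub h1.le]; ring
    generalize ((p - j : ℕ) : ℚ) = x at *
    rw [e]
    field_simp
    ring

theorem M6 (hP : p = 2 * P + 1) (hP2 : 2 ≤ P) : 6 * Hq 2 P + 7 * p * Hq 3 P ∈ I p 2 := by
  -- full sum
  set Fu : ℚ := ∑ i ∈ range (2 * P), (((i + 1 : ℕ) : ℚ)⁻¹)^2 with hFu
  have h1 : Fu - (2 * Hq 2 P + 2 * p * Hq 3 P) ∈ I p 2 := by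
    have e1 : Fu - (2 * Hq 2 P + 2 * p * Hq 3 P) = ∑ t ∈ range P,
        ((((p - (t + 1) : ℕ) : ℚ)⁻¹)^2 - ((((t + 1 : ℕ) : ℚ)⁻¹)^2 + 2 * p * (((t + 1 : ℕ) : ℚ)⁻¹)^3)) := by
      rw [hFu, two_mul, sum_range_add, ← sum_range_reflect (fun x => (((P + x + 1 : ℕ) : ℚ)⁻¹)^2), sum_sub_distrib,
        sum_add_distrib, ← mul_sum]
      have e2 : ∑ j ∈ range P, (((P + (P - 1 - j) + 1 : ℕ) : ℚ)⁻¹)^2 = ∑ t ∈ range P, (((p - (t + 1) : ℕ) : ℚ)⁻¹)^2 := by
        apply sum_congr rfl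
        intro t ht
        have ht := mem_range.mp ht
        rw [show P + (P - 1 - t) + 1 = p - (t + 1) by omega]
      rw [e2]
      unfold Hq
      ring
    rw [e1]
    apply sum_mem
    intro t ht
    have ht := mem_range.mp ht
    exact compl_sq (t+1) (by omega) (by omega)
  have h2 : Fu - (2⁻¹ * Hq 2 P + 4⁻¹ * p * Hq 3 P) ∈ I p 2 := by
    have e1 : Fu - (2⁻¹ * Hq 2 P + 4⁻¹ * p * Hq 3 P) = ∑ t ∈ range P,
        ((((p - (2 * (t + 1)) : ℕ) : ℚ)⁻¹)^2 - ((((2 * (t + 1) : ℕ) : ℚ)⁻¹)^2 + 2 * p * (((2 * (t + 1) : ℕ) : ℚ)⁻¹)^3)) := by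
      rw [hFu, split_parity, sum_add_distrib, ← sum_range_reflect (fun x => (((2 * x + 1 : ℕ) : ℚ)⁻¹)^2), sum_sub_distrib,
        sum_add_distrib, ← mul_sum]
      have e2 : ∑ j ∈ range P, (((2 * (P - 1 - j) + 1 : ℕ) : ℚ)⁻¹)^2 = ∑ t ∈ range P, (((p - 2 * (t + 1) : ℕ) : ℚ)⁻¹)^2 := by
        apply sum_congr rfl
        intro t ht
        have ht := mem_range.mp ht
        rw [show 2 * (P - 1 - t) + 1 = p - 2 * (t + 1) by omega]
      have e3 : ∑ v ∈ range P, (((2 * v + 1 + 1 : ℕ) : ℚ)⁻¹)^2 = 4⁻¹ * Hq 2 P := by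
        unfold Hq
        rw [mul_sum]
        apply sum_congr rfl
        intro v _
        have : ((2 * v + 1 + 1 : ℕ) : ℚ) = 2 * ((v + 1 : ℕ) : ℚ) := by push_cast; ring
        rw [this, mul_inv, mul_pow]
        norm_num
      have e4 : ∑ v ∈ range P, (((2 * (v + 1) : ℕ) : ℚ)⁻¹)^2 = 4⁻¹ * Hq 2 P := by
        unfold Hq
        rw [mul_sum]
        apply sum_congr rfl
        intro v _
        rw [Nat.cast_mul, mul_inv, mul_pow]
        norm_num
      have e5 : ∑ v ∈ range P, (((2 * (v + 1) : ℕ) : ℚ)⁻¹)^3 = 8⁻¹ * Hq 3 P := by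
        unfold Hq
        rw [mul_sum]
        apply sum_congr rfl
        intro v _
        rw [Nat.cast_mul, mul_inv, mul_pow]
        norm_num
      rw [e2, e3, e4, e5]
      ring
    rw [e1]
    apply sum_mem
    intro t ht
    have ht := mem_range.mp ht
    exact compl_sq (2 * (t+1)) (by omega) (by omega)
  have h3 : (4 : ℚ) * ((Fu - (2⁻¹ * Hq 2 P + 4⁻¹ * p * Hq 3 P)) - (Fu - (2 * Hq 2 P + 2 * p * Hq 3 P))) ∈ I p 2 :=
    I_mul_left (by exact_mod_cast natCast_Zp (p := p) 4) (sub_mem h2 h1)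
  convert h3 using 1
  ring

/-- `a_k = C(2k,k)/4^k` -/
theorem ak_cb (k : ℕ) : ak k = (Nat.centralBinom k : ℚ) / 4^k := by
  induction k with
  | zero => simp [ak]
  | succ k ih =>
    rw [ak_succ, ih]
    have h := Nat.succ_mul_centralBinom_succ k
    have h2 : ((k : ℚ) + 1) * (Nat.centralBinom (k+1) : ℚ) = 2 * (2 * k + 1) * (Nat.centralBinom k : ℚ) := by
      exact_mod_cast h
    have hk : ((k : ℚ) + 1) ≠ 0 := by positivity
    have h3 : (Nat.centralBinom (k+1) : ℚ) = 2 * (2 * k + 1) * (Nat.centralBinom k : ℚ) / (k + 1) := by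
      rw [eq_div_iff hk]; linear_combination h2
    rw [h3]
    have h4 : (2 * (k : ℚ) + 2) ≠ 0 := by positivity
    rw [pow_succ]
    field_simp
    ring

theorem four_nd (hp2 : 2 < p) (k : ℕ) : ¬ p ∣ 4^k := by
  intro h
  have := hp.out.dvd_of_dvd_pow h
  have h4 : (4 : ℕ) = 2 * 2 := rfl
  rw [h4] at this
  rcases hp.out.dvd_mul.mp this with h | h <;>
  · have := Nat.le_of_dvd (by norm_num) h
    omega

theorem ak_Zp (hp2 : 2 < p) (k : ℕ) : ak k ∈ Zp p := by
  rw [ak_cb]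
  have := div_Zp (p := p) (natCast_Zp (Nat.centralBinom k)) (four_nd hp2 k)
  push_cast at this
  exact this

theorem rd_ak (hp2 : 2 < p) (k : ℕ) : ((ak k : ℚ) : ZMod p) = (Nat.centralBinom k : ZMod p) * ((4 : ZMod p)^k)⁻¹ := by
  rw [ak_cb, div_eq_mul_inv]
  have h1 := inv_Zp (p := p) (four_nd hp2 k)
  have h2 := rd_inv (p := p) (four_nd hp2 k)
  push_cast at h1 h2
  rw [rd_mul (natCast_Zp _) h1, h2, Rat.cast_natCast]

theorem four_ne (hp2 : 2 < p) : (4 : ZMod p) ≠ 0 := by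
  have := four_nd hp2 1
  rw [pow_one] at this
  intro h
  apply this
  rw [← ZMod.natCast_eq_zero_iff]
  exact_mod_cast h

/-- Lucas: `a_{pk} ≡ a_k` -/
theorem rd_ak_mul (hp2 : 2 < p) (k : ℕ) : ((ak (p * k) : ℚ) : ZMod p) = ((ak k : ℚ) : ZMod p) := by
  rw [rd_ak hp2, rd_ak hp2]
  congr 1
  · have h := Choose.choose_modEq_choose_mod_mul_choose_div_nat (n := 2 * (p * k)) (k := p * k) (p := p)
    have e1 : 2 * (p * k) % p = 0 := by
      rw [show 2 * (p * k) = p * (2 * k) by ring]; exact Nat.mul_mod_right p _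
    have e2 : p * k % p = 0 := Nat.mul_mod_right p _
    have e3 : 2 * (p * k) / p = 2 * k := by
      rw [show 2 * (p * k) = p * (2 * k) by ring]; exact Nat.mul_div_cancel_left _ hp.out.pos
    have e4 : p * k / p = k := Nat.mul_div_cancel_left _ hp.out.pos
    rw [e1, e2, e3, e4, Nat.choose_self, one_mul] at h
    unfold Nat.centralBinom
    exact (ZMod.natCast_eq_natCast_iff _ _ _).mpr h
  · rw [mul_comm, pow_mul, ZMod.pow_card]

theorem rd_ak_pow (hp2 : 2 < p) (r k : ℕ) : ((ak (p^r * k) : ℚ) : ZMod p) = ((ak k : ℚ) : ZMod p) := by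
  induction r with
  | zero => simp
  | succ r ih => rw [show p^(r+1) * k = p * (p^r * k) by ring, rd_ak_mul hp2, ih]

theorem choose_pred (k : ℕ) (hk : k < p) : (((p-1).choose k : ℕ) : ZMod p) = (-1)^k := by
  induction k with
  | zero => simp
  | succ k ih =>
    have h := Nat.choose_succ_succ (p-1) k
    have hpe : (p - 1).succ = p := by have := hp.out.pos; omega
    rw [hpe] at h
    have h2 : ((p.choose (k+1) : ℕ) : ZMod p) = 0 := by
      rw [ZMod.natCast_eq_zero_iff]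
      exact hp.out.dvd_choose_self (by omega) hk
    have h3 : ((p.choose (k+1) : ℕ) : ZMod p) = ((p-1).choose k : ZMod p) + ((p-1).choose (k+1) : ZMod p) := by
      have : p.choose (k+1) = (p-1).choose k + (p-1).choose (k+1) := h
      rw [this]; push_cast; ring
    rw [h2, ih (by omega)] at h3
    rw [pow_succ]
    linear_combination -h3

theorem rd_ak_N (hP : p = 2 * P + 1) (hP2 : 2 ≤ P) (m : ℕ) :
    ((ak (p * m + P) : ℚ) : ZMod p) = ((ak m : ℚ) : ZMod p) * (-1)^P := by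
  have hp2 : 2 < p := by omega
  rw [rd_ak hp2, rd_ak hp2]
  have h := Choose.choose_modEq_choose_mod_mul_choose_div_nat (n := 2 * (p * m + P)) (k := p * m + P) (p := p)
  have e0 : 2 * (p * m + P) = (p - 1) + p * (2 * m) := by
    have : p * (2 * m) = 2 * (p * m) := by ring
    omega
  have e1 : 2 * (p * m + P) % p = p - 1 := by
    rw [e0, Nat.add_mul_mod_self_left]
    exact Nat.mod_eq_of_lt (by omega)
  have e2 : (p * m + P) % p = P := by
    rw [add_comm, Nat.add_mul_mod_self_left]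
    exact Nat.mod_eq_of_lt (by omega)
  have e3 : 2 * (p * m + P) / p = 2 * m := by
    rw [e0, Nat.add_mul_div_left _ _ hp.out.pos, Nat.div_eq_of_lt (by omega), zero_add]
  have e4 : (p * m + P) / p = m := by
    rw [add_comm, Nat.add_mul_div_left _ _ hp.out.pos, Nat.div_eq_of_lt (by omega), zero_add]
  rw [e1, e2, e3, e4] at h
  have h2 : ((Nat.centralBinom (p * m + P) : ℕ) : ZMod p) = (-1)^P * (Nat.centralBinom m : ZMod p) := by
    unfold Nat.centralBinom
    have := (ZMod.natCast_eq_natCast_iff _ _ _).mpr h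
    rw [this]
    push_cast
    rw [choose_pred P (by omega)]
  rw [h2]
  have h3 : (4 : ZMod p)^(p * m + P) = 4^m := by
    rw [pow_add, pow_mul, ZMod.pow_card]
    have : (4 : ZMod p)^P = 1 := by
      have h4 : (4 : ZMod p) = 2^2 := by norm_num
      rw [h4, ← pow_mul, show 2 * P = p - 1 by omega]
      exact ZMod.pow_card_sub_one_eq_one (two_ne hP hP2)
    rw [this, mul_one]
  rw [h3]
  ring

theorem rd_ak_Nr (hP : p = 2 * P + 1) (hP2 : 2 ≤ P) (r N : ℕ) (hN : p^r = 2 * N + 1) :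
    ((ak N : ℚ) : ZMod p)^2 = 1 := by
  induction r generalizing N with
  | zero =>
    have : N = 0 := by simp at hN; omega
    rw [this, ak_zero]; simp
  | succ r ih =>
    have hodd : Odd (p^r) := by
      apply Odd.pow
      exact ⟨P, hP⟩
    obtain ⟨m, hm⟩ := hodd
    have hNm : N = p * m + P := by
      have : p^(r+1) = p * (2 * m + 1) := by rw [pow_succ, hm]; ring
      rw [this] at hN
      have h2 : p * (2 * m + 1) = 2 * (p * m) + p := by ring
      omega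
    rw [hNm, rd_ak_N hP hP2, mul_pow, ih m hm, ← pow_mul, mul_comm P 2, pow_mul]
    simp

end
end Pool.Agent.D0H46.SC
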