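import Mathlib
import Pool.Agent.D0H46.SC.Final

namespace Pool.Agent.D0H46.SC

open Finset

section
variable {p : ℕ} [hp : Fact p.Prime] {P : ℕ}

/-- `O_k = Σ_{j<k} 1/(2j+1)^2` -/
def Oq (k : ℕ) : ℚ := ∑ j ∈ range k, (((2 * j + 1 : ℕ) : ℚ)⁻¹)^2

theorem Oq_Zp (hP : p = 2 * P + 1) (k : ℕ) (hk : k ≤ P) : Oq k ∈ Zp p := by
  unfold Oq
  apply sum_mem
  intro j hj
  have hj := mem_range.mp hj
  exact pow_mem (inv_Zp (nd (by omega) (by omega))) _

/-- `X_r = Σ_{k=1}^P a_{qk}^2 O_k / (2k)` -/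
def Xr (q P : ℕ) : ℚ := ∑ k ∈ range P, ak (q * (k + 1))^2 * Oq (k+1) * ((2 * (k + 1) : ℕ) : ℚ)⁻¹

theorem Xr_Zp (hP : p = 2 * P + 1) (hP2 : 2 ≤ P) (q : ℕ) : Xr q P ∈ Zp p := by
  unfold Xr
  apply sum_mem
  intro k hk
  have hk := mem_range.mp hk
  exact mul_mem (mul_mem (pow_mem (ak_Zp (by omega) _) _) (Oq_Zp hP _ (by omega))) (inv_Zp (nd (by omega) (by omega)))

theorem rd_ak_prod (hP : p = 2 * P + 1) (hP2 : 2 ≤ P) (k : ℕ) (hk : k ≤ P) :
    ((ak k : ℚ) : ZMod p)^2 = ∏ j ∈ range k, cc p j := by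
  induction k with
  | zero => simp [ak]
  | succ k ih =>
    rw [prod_range_succ, ← ih (by omega)]
    have h1 : ak (k+1) = ak k * (((2 * k + 1 : ℕ) : ℚ) * ((2 * k + 2 : ℕ) : ℚ)⁻¹) := by
      rw [ak_succ, div_eq_mul_inv]; push_cast; ring
    have hn : ¬ p ∣ (2 * k + 2) := nd (by omega) (by omega)
    rw [h1, rd_mul (ak_Zp (by omega) _) (mul_mem (natCast_Zp _) (inv_Zp hn)), rd_mul (natCast_Zp _) (inv_Zp hn),
      rd_inv hn, Rat.cast_natCast]
    unfold cc
    push_cast
    ring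

theorem rd_Xr (hP : p = 2 * P + 1) (hP2 : 2 ≤ P) (r : ℕ) : 2 * ((Xr (p^r) P : ℚ) : ZMod p) = F1 p P := by
  unfold Xr F1
  rw [rd_sum, mul_sum]
  · apply sum_congr rfl
    intro k hk
    have hk := mem_range.mp hk
    have hn : ¬ p ∣ (2 * (k + 1)) := nd (by omega) (by omega)
    rw [rd_mul (mul_mem (pow_mem (ak_Zp (by omega) _) _) (Oq_Zp hP _ (by omega))) (inv_Zp hn),
      rd_mul (pow_mem (ak_Zp (by omega) _) _) (Oq_Zp hP _ (by omega)), rd_pow (ak_Zp (by omega) _),
      rd_ak_pow (by omega), rd_ak_prod hP hP2 _ (by omega), rd_inv hn]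
    have hO : ((Oq (k+1) : ℚ) : ZMod p) = ∑ j ∈ range (k+1), bb p j := by
      unfold Oq
      rw [rd_sum]
      · apply sum_congr rfl
        intro j hj
        have hj := mem_range.mp hj
        have hn' : ¬ p ∣ (2 * j + 1) := nd (by omega) (by omega)
        rw [rd_pow (inv_Zp hn'), rd_inv hn']
        unfold bb
        push_cast
        rw [inv_pow]
      · intro j hj
        have hj := mem_range.mp hj
        exact pow_mem (inv_Zp (nd (by omega) (by omega))) _
    rw [hO]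
    have h2 := two_ne hP hP2
    push_cast
    rw [mul_inv]
    field_simp
  · intro k hk
    have hk := mem_range.mp hk
    exact mul_mem (mul_mem (pow_mem (ak_Zp (by omega) _) _) (Oq_Zp hP _ (by omega))) (inv_Zp (nd (by omega) (by omega)))

/-- main p-adic estimate -/
theorem main_est (hP : p = 2 * P + 1) (hP2 : 2 ≤ P) (r N : ℕ) (hN : p^(r+1) = 2 * N + 1) :
    ak N ^ 2 * ∑ k ∈ range (N+1), ak k ^ 2 * ((2 * N + 1 : ℚ) / (2 * N + 1 - 2 * k))
      - (1 - (p : ℚ)^2 * 4⁻¹ * Hq 2 P - ak N ^ 2 * ((p : ℚ)^3 * Xr (p^r) P)) ∈ I p 4 := by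
  have hp2 : 2 < p := by omega
  set n : ℚ := 2 * N + 1 with hn
  have hnp : n = (p : ℚ)^(r+1) := by rw [hn]; exact_mod_cast hN.symm
  have hp0 : (p : ℚ) ≠ 0 := by exact_mod_cast hp.out.ne_zero
  have hq0 : 0 < p^r := Nat.pow_pos hp.out.pos
  have hqodd : Odd (p^r) := Odd.pow ⟨P, hP⟩
  have hNq : 2 * N + 1 = p^r * (2 * P + 1) := by rw [← hN, pow_succ, ← hP]
  -- y-type elements
  have hdiv : ∀ k : ℕ, 0 < k → k < 2 * N + 1 → n / k ∈ I p 1 := by
    intro k h0 h1
    rw [hnp]
    exact ppow_div h0 (by omega)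
  have hdiv2 : ∀ k : ℕ, 0 < k → k < 2 * N + 1 → ¬ p^r ∣ k → n / k ∈ I p 2 := by
    intro k h0 h1 h2
    rw [hnp]
    exact ppow_div2 h0 (by omega) h2
  -- f_j
  set f : ℕ → ℚ := fun j => (n / (2 * j + 1))^2 with hf
  have hfI : ∀ j : ℕ, 2 * j + 1 < 2 * N + 1 → f j ∈ I p 2 := by
    intro j hj
    have := I_pow (hdiv (2 * j + 1) (by omega) hj) 2
    push_cast at this
    exact this
  have hSf : ∀ k ≤ N, ∑ j ∈ range k, f j ∈ I p 2 := by
    intro k hk
    apply sum_mem
    intro j hj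
    have hj := mem_range.mp hj
    exact hfI j (by omega)
  -- y_k
  set y : ℕ → ℚ := fun k => n / (2 * k) with hy
  have hyI : ∀ k : ℕ, 0 < k → k ≤ N → y k ∈ I p 1 := by
    intro k h0 h1
    have := hdiv (2 * k) (by omega) (by omega)
    push_cast at this
    exact this
  -- step 1 : R - saal
  have step1 : ak N ^ 2 * ∑ k ∈ range (N+1), ak k ^ 2 * (n / (n - 2 * k))
      - (∏ j ∈ range N, (1 - (n / (2 * (j + 1)))^2) - ak N ^ 2 * ∑ k ∈ range (N+1), ak k ^ 2 * (∑ j ∈ range k, f j) * y k) ∈ I p 4 := by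
    rw [← saal N]
    have e : ak N ^ 2 * ∑ k ∈ range (N+1), ak k ^ 2 * (n / (n - 2 * k))
      - (ak N ^ 2 * ∑ k ∈ range (N+1), bk N k * ((2 * N + 1 : ℚ) / (2 * N + 1 - 2 * k)) - ak N ^ 2 * ∑ k ∈ range (N+1), ak k ^ 2 * (∑ j ∈ range k, f j) * y k)
      = ak N ^ 2 * ∑ k ∈ range (N+1), ((ak k ^ 2 - bk N k) * (n / (n - 2 * k)) + ak k ^ 2 * (∑ j ∈ range k, f j) * y k) := by
      rw [sum_add_distrib]
      simp_rw [sub_mul]
      rw [sum_sub_distrib]
      ring
    rw [e]
    apply I_mul_left (pow_mem (ak_Zp hp2 _) _)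
    apply sum_mem
    intro k hk
    have hk : k ≤ N := by simpa [Nat.lt_succ_iff] using hk
    rcases Nat.eq_zero_or_pos k with rfl | h0
    · simp [bk, ak]
    · have hz : n / (n - 2 * k) ∈ I p 1 := by
        have h1 := hdiv (2 * N + 1 - 2 * k) (by omega) (by omega)
        have e1 : ((2 * N + 1 - 2 * k : ℕ) : ℚ) = n - 2 * k := by
          rw [Nat.cast_sub (by omega)]; push_cast; rw [hn]
        rwa [e1] at h1
      have hne : n - 2 * k ≠ 0 := by
        have e1 : ((2 * N + 1 - 2 * k : ℕ) : ℚ) = n - 2 * k := by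
          rw [Nat.cast_sub (by omega)]; push_cast; rw [hn]
        rw [← e1]
        have : 2 * N + 1 - 2 * k ≠ 0 := by omega
        exact_mod_cast this
      have hk0 : (k : ℚ) ≠ 0 := by positivity
      have hzy : n / (n - 2 * k) + y k = y k * (n / (n - 2 * k)) := by
        rw [hy]
        field_simp
        ring
      have hbk : bk N k = ak k ^ 2 * ∏ j ∈ range k, (1 - f j) := bk_ak N k
      have hprod := prod_one_sub (p := p) (range k) f (fun j hj => hfI j (by have := mem_range.mp hj; omega))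
      set Pr := ∏ j ∈ range k, (1 - f j) with hPr
      set Sf := ∑ j ∈ range k, f j with hSfk
      have e2 : (ak k ^ 2 - bk N k) * (n / (n - 2 * k)) + ak k ^ 2 * Sf * y k
          = ak k ^ 2 * (Sf * (y k * (n / (n - 2 * k))) - (Pr - (1 - Sf)) * (n / (n - 2 * k))) := by
        rw [hbk]
        linear_combination (ak k ^ 2 * Sf) * hzy
      rw [e2]
      apply I_mul_left (pow_mem (ak_Zp hp2 _) _)
      apply sub_mem
      · exact I_mul (hSf k hk) (I_mul (hyI k h0 hk) hz)
      · exact I_mul_right hprod (I_Zp hz)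
  -- step 2 : the product
  have step2 : ∏ j ∈ range N, (1 - (n / (2 * (j + 1)))^2) - (1 - (p : ℚ)^2 * 4⁻¹ * Hq 2 P) ∈ I p 4 := by
    have hg : ∀ j ∈ range N, (n / (2 * ((j : ℚ) + 1)))^2 ∈ I p 2 := by
      intro j hj
      have hj := mem_range.mp hj
      have := I_pow (hyI (j+1) (by omega) (by omega)) 2
      simp only [hy] at this
      push_cast at this
      exact this
    have h1 := prod_one_sub (p := p) (range N) (fun j => (n / (2 * ((j : ℚ) + 1)))^2) hg
    have hLB : ∀ o, o < P + 1 ↔ p^r * o < N + 1 := by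
      intro o
      constructor
      · intro ho
        have : p^r * o ≤ p^r * P := Nat.mul_le_mul_left _ (by omega)
        have h3 : p^r * (2 * P + 1) = 2 * (p^r * P) + p^r := by ring
        omega
      · intro ho
        by_contra hc
        have : p^r * (P + 1) ≤ p^r * o := Nat.mul_le_mul_left _ (by omega)
        have h3 : p^r * (2 * P + 1) = 2 * (p^r * P) + p^r := by ring
        have h4 : p^r * (P + 1) = p^r * P + p^r := by ring
        omega
    have h2 := sieve (p := p) (p^r) (N+1) (P+1) 4 hq0 hLB (fun o => (y o)^2) (by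
      intro o ho hno
      have ho0 : 0 < o := by
        rcases Nat.eq_zero_or_pos o with rfl | h
        · exact absurd (dvd_zero _) hno
        · exact h
      have h3 := hdiv2 (2 * o) (by omega) (by omega) (by
        intro hd
        apply hno
        exact (Nat.Coprime.dvd_mul_left (Nat.Coprime.symm (Nat.coprime_two_left.mpr hqodd))).mp hd)
      have := I_pow h3 2
      push_cast at this
      exact this)
    rw [sum_range_succ' (fun o => (y o)^2) N, sum_range_succ' (fun o => (y (p^r * o))^2) P] at h2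
    have hy0 : y 0 = 0 := by simp [hy]
    rw [mul_zero, hy0] at h2
    have e1 : ∑ k ∈ range P, y (p^r * (k+1))^2 = (p : ℚ)^2 * 4⁻¹ * Hq 2 P := by
      unfold Hq
      rw [mul_sum]
      apply sum_congr rfl
      intro k _
      simp only [hy]
      rw [hnp]
      push_cast
      have : (k : ℚ) + 1 ≠ 0 := by positivity
      have : (p : ℚ)^r ≠ 0 := pow_ne_zero _ hp0
      rw [pow_succ (p : ℚ) r]
      field_simp
      norm_num
    have e2 : ∑ k ∈ range N, y (k+1)^2 = ∑ j ∈ range N, (n / (2 * ((j : ℚ) + 1)))^2 := by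
      apply sum_congr rfl
      intro k _
      simp only [hy]
      push_cast
      rfl
    rw [e1, e2] at h2
    have h3 := sub_mem h1 h2
    convert h3 using 1
    ring
  -- step 3 : the weighted sum
  have step3 : ∑ k ∈ range (N+1), ak k ^ 2 * (∑ j ∈ range k, f j) * y k - (p : ℚ)^3 * Xr (p^r) P ∈ I p 4 := by
    have hLB : ∀ o, o < P + 1 ↔ p^r * o < N + 1 := by
      intro o
      constructor
      · intro ho
        have : p^r * o ≤ p^r * P := Nat.mul_le_mul_left _ (by omega)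
        have h3 : p^r * (2 * P + 1) = 2 * (p^r * P) + p^r := by ring
        omega
      · intro ho
        by_contra hc
        have : p^r * (P + 1) ≤ p^r * o := Nat.mul_le_mul_left _ (by omega)
        have h3 : p^r * (2 * P + 1) = 2 * (p^r * P) + p^r := by ring
        have h4 : p^r * (P + 1) = p^r * P + p^r := by ring
        omega
    have h2 := sieve (p := p) (p^r) (N+1) (P+1) 4 hq0 hLB (fun k => ak k ^ 2 * (∑ j ∈ range k, f j) * y k) (by
      intro o ho hno
      have ho0 : 0 < o := by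
        rcases Nat.eq_zero_or_pos o with rfl | h
        · exact absurd (dvd_zero _) hno
        · exact h
      have h3 := hdiv2 (2 * o) (by omega) (by omega) (by
        intro hd
        apply hno
        exact (Nat.Coprime.dvd_mul_left (Nat.Coprime.symm (Nat.coprime_two_left.mpr hqodd))).mp hd)
      push_cast at h3
      exact I_mul (I_mul_left (pow_mem (ak_Zp hp2 _) _) (hSf o (by omega))) h3)
    rw [sum_range_succ' (fun k => ak (p^r * k) ^ 2 * (∑ j ∈ range (p^r * k), f j) * y (p^r * k)) P] at h2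
    have hy0 : y 0 = 0 := by simp [hy]
    rw [mul_zero, hy0, mul_zero, add_zero] at h2
    have h4 : ∑ k ∈ range P, ak (p^r * (k+1)) ^ 2 * (∑ j ∈ range (p^r * (k+1)), f j) * y (p^r * (k+1)) - (p : ℚ)^3 * Xr (p^r) P ∈ I p 4 := by
      unfold Xr
      rw [mul_sum, ← sum_sub_distrib]
      apply sum_mem
      intro k hk
      have hk := mem_range.mp hk
      have hyk : y (p^r * (k+1)) = p * ((2 * (k + 1) : ℕ) : ℚ)⁻¹ := by
        simp only [hy]
        rw [hnp]
        push_cast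
        have : (k : ℚ) + 1 ≠ 0 := by positivity
        have : (p : ℚ)^r ≠ 0 := pow_ne_zero _ hp0
        rw [pow_succ]
        field_simp
      have hqk : p^r * (k+1) ≤ N := by
        have := (hLB (k+1)).mp (by omega)
        omega
      have hsum : ∑ j ∈ range (p^r * (k+1)), f j - (p : ℚ)^2 * Oq (k+1) ∈ I p 4 := by
        have g1 : ∑ j ∈ range (p^r * (k+1)), f j = ∑ o ∈ range (2 * (p^r * (k+1))), (if Odd o then (n / o)^2 else 0) := by
          rw [split_parity]
          apply sum_congr rfl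
          intro j _
          have o1 : ¬ Odd (2 * j) := Nat.not_odd_iff_even.mpr (even_two_mul j)
          have o2 : Odd (2 * j + 1) := odd_two_mul_add_one j
          rw [if_neg o1, if_pos o2, zero_add]
          simp only [hf]
          push_cast
          rfl
        have g2 : (p : ℚ)^2 * Oq (k+1) = ∑ o ∈ range (2 * (k+1)), (if Odd (p^r * o) then (n / ((p^r * o : ℕ) : ℚ))^2 else 0) := by
          rw [split_parity]
          unfold Oq
          rw [mul_sum]
          apply sum_congr rfl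
          intro j _
          have o1 : ¬ Odd (p^r * (2 * j)) := Nat.not_odd_iff_even.mpr ((even_two_mul j).mul_left _)
          have o2 : Odd (p^r * (2 * j + 1)) := hqodd.mul (odd_two_mul_add_one j)
          rw [if_neg o1, if_pos o2, zero_add, hnp]
          push_cast
          have h5 : (2 * (j : ℚ) + 1) ≠ 0 := by positivity
          have h6 : (p : ℚ)^r ≠ 0 := pow_ne_zero _ hp0
          rw [pow_succ (p : ℚ) r]
          field_simp
        rw [g1, g2]
        apply sieve (p := p) (p^r) (2 * (p^r * (k+1))) (2 * (k+1)) 4 hq0 _ (fun o => if Odd o then (n / o)^2 else 0)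
        · intro o ho hno
          split_ifs with hodd
          · have ho0 : 0 < o := hodd.pos
            exact I_pow (hdiv2 o ho0 (by omega) hno) 2
          · exact zero_mem _
        · intro o
          rw [show 2 * (p^r * (k+1)) = p^r * (2 * (k+1)) by ring]
          exact (Nat.mul_lt_mul_left hq0).symm
      rw [hyk]
      have e : ak (p^r * (k+1)) ^ 2 * (∑ j ∈ range (p^r * (k+1)), f j) * (p * ((2 * (k + 1) : ℕ) : ℚ)⁻¹)
        - (p : ℚ)^3 * (ak (p^r * (k+1)) ^ 2 * Oq (k+1) * ((2 * (k + 1) : ℕ) : ℚ)⁻¹)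
        = (ak (p^r * (k+1)) ^ 2 * (p * ((2 * (k + 1) : ℕ) : ℚ)⁻¹)) * (∑ j ∈ range (p^r * (k+1)), f j - (p : ℚ)^2 * Oq (k+1)) := by
        ring
      rw [e]
      apply I_mul_left _ hsum
      exact mul_mem (pow_mem (ak_Zp hp2 _) _) (mul_mem (natCast_Zp _) (inv_Zp (nd (by omega) (by omega))))
    have h5 := add_mem h2 h4
    convert h5 using 1
    ring
  have h6 := add_mem (add_mem step1 step2) (neg_mem (I_mul_left (pow_mem (ak_Zp hp2 N) 2) step3))
  convert h6 using 1
  ring

/-- the congruence for `S/n` -/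
theorem main_cong (hP : p = 2 * P + 1) (hP2 : 2 ≤ P) (r N : ℕ) (hN : p^(r+1) = 2 * N + 1) :
    ak N ^ 2 * ∑ k ∈ range (N+1), ak k ^ 2 * ((2 * N + 1 : ℚ) / (2 * N + 1 - 2 * k))
      - (1 + 7 / 6 * bernoulli (p - 3) * (p : ℚ)^3) ∈ I p 4 := by
  have hp2 : 2 < p := by omega
  have h1 := main_est hP hP2 r N hN
  have h6 := M6 hP hP2
  have n24 : ¬ p ∣ 24 := by
    intro h
    have : (24 : ℕ) = 2^3 * 3 := by norm_num
    rw [this] at h
    rcases hp.out.dvd_mul.mp h with h | h
    · have := Nat.le_of_dvd (by norm_num) (hp.out.dvd_of_dvd_pow h); omega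
    · have := Nat.le_of_dvd (by norm_num) h; omega
  have i24 : ((24 : ℚ))⁻¹ ∈ Zp p := by exact_mod_cast inv_Zp n24
  have hH2 : Hq 2 P ∈ Zp p := Hq_Zp 2 P (by omega)
  have hH3 : Hq 3 P ∈ Zp p := Hq_Zp 3 P (by omega)
  have hB : bernoulli (p-3) ∈ Zp p := bern_int (p-3) (by omega)
  have hX := Xr_Zp hP hP2 (p^r)
  have hA : ak N ^ 2 ∈ Zp p := pow_mem (ak_Zp hp2 N) 2
  have h7 : (7 : ℚ) ∈ Zp p := by exact_mod_cast natCast_Zp (p := p) 7
  have h28 : (28 : ℚ) ∈ Zp p := by exact_mod_cast natCast_Zp (p := p) 28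
  have h24' : (24 : ℚ) ∈ Zp p := by exact_mod_cast natCast_Zp (p := p) 24
  -- the mod p identity
  have key : 7 * Hq 3 P - 24 * (ak N ^ 2 * Xr (p^r) P) - 28 * bernoulli (p-3) ∈ I p 1 := by
    apply rd_zero
    · exact sub_mem (sub_mem (mul_mem h7 hH3) (mul_mem h24' (mul_mem hA hX))) (mul_mem h28 hB)
    · rw [rd_sub (sub_mem (mul_mem h7 hH3) (mul_mem h24' (mul_mem hA hX))) (mul_mem h28 hB),
        rd_sub (mul_mem h7 hH3) (mul_mem h24' (mul_mem hA hX)), rd_mul h7 hH3, rd_mul h24' (mul_mem hA hX),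
        rd_mul hA hX, rd_mul h28 hB, rd_pow (ak_Zp hp2 N), rd_ak_Nr hP hP2 (r+1) N hN, rd_Hq 3 P (by omega),
        H3_eq hP hP2, ← M5 hP hP2]
      have e1 := rd_Xr hP hP2 r
      have e2 := M4 hP hP2
      have e3 := E_val hP hP2
      have c7 : ((7 : ℚ) : ZMod p) = 7 := by exact_mod_cast Rat.cast_natCast (α := ZMod p) 7
      have c24 : ((24 : ℚ) : ZMod p) = 24 := by exact_mod_cast Rat.cast_natCast (α := ZMod p) 24
      have c28 : ((28 : ℚ) : ZMod p) = 28 := by exact_mod_cast Rat.cast_natCast (α := ZMod p) 28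
      rw [c7, c24, c28]
      linear_combination (-12) * e1 - 12 * e2 + 6 * e3
  -- assemble
  have e : ak N ^ 2 * ∑ k ∈ range (N+1), ak k ^ 2 * ((2 * N + 1 : ℚ) / (2 * N + 1 - 2 * k))
      - (1 + 7 / 6 * bernoulli (p - 3) * (p : ℚ)^3)
      = (ak N ^ 2 * ∑ k ∈ range (N+1), ak k ^ 2 * ((2 * N + 1 : ℚ) / (2 * N + 1 - 2 * k))
      - (1 - (p : ℚ)^2 * 4⁻¹ * Hq 2 P - ak N ^ 2 * ((p : ℚ)^3 * Xr (p^r) P)))
      - 24⁻¹ * ((p : ℚ)^2 * (6 * Hq 2 P + 7 * p * Hq 3 P))
      + 24⁻¹ * ((p : ℚ)^3 * (7 * Hq 3 P - 24 * (ak N ^ 2 * Xr (p^r) P) - 28 * bernoulli (p-3))) := by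
    ring
  rw [e]
  apply add_mem (sub_mem h1 _)
  · apply I_mul_left i24
    exact I_mul (a := 3) (b := 1) ⟨1, one_mem _, by ring⟩ key
  · apply I_mul_left i24
    exact I_mul (a := 2) (b := 2) ⟨1, one_mem _, by ring⟩ h6

end
end Pool.Agent.D0H46.SC
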