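import Mathlib
import Pool.Agent.D0H46.SC.Exact

namespace Pool.Agent.D0H46.SC

open Finset Polynomial

/-- `(x+1/2)_k` -/
def rr (x : ℚ) (k : ℕ) : ℚ := ∏ i ∈ range k, (x + 1/2 + i)

theorem rr_succ (x : ℚ) (k : ℕ) : rr x (k+1) = rr x k * (x + 1/2 + k) := by
  unfold rr; rw [prod_range_succ]

theorem rr_succ' (x : ℚ) (k : ℕ) : rr x (k+1) = (x + 1/2) * rr (x+1) k := by
  unfold rr
  rw [prod_range_succ', mul_comm]
  congr 1
  · simp
  · apply prod_congr rfl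
    intro i _
    push_cast; ring

/-- `T_n(x)` -/
def TT (n : ℕ) (x : ℚ) : ℚ := ∑ k ∈ range n, (3 * k + 2 * x + 1) * ak k * 4^k * (rr x k / (k.factorial : ℚ))^2

theorem TT_diff (n : ℕ) (x : ℚ) :
    TT (n+1) (x+1) - TT (n+1) x = 4^(n+1) * ak (n+1) * (n+1) * (rr (x+1) n / (n.factorial : ℚ))^2 := by
  induction n with
  | zero =>
    simp [TT, ak, rr]
    ring
  | succ n ih =>
    have h1 : TT (n+1+1) (x+1) - TT (n+1+1) x = (TT (n+1) (x+1) - TT (n+1) x)
        + ((3 * ((n+1 : ℕ) : ℚ) + 2 * (x+1) + 1) * ak (n+1) * 4^(n+1) * (rr (x+1) (n+1) / ((n+1).factorial : ℚ))^2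
          - (3 * ((n+1 : ℕ) : ℚ) + 2 * x + 1) * ak (n+1) * 4^(n+1) * (rr x (n+1) / ((n+1).factorial : ℚ))^2) := by
      unfold TT
      rw [sum_range_succ _ (n+1), sum_range_succ _ (n+1)]
      ring
    rw [h1, ih, rr_succ (x+1) n, rr_succ' x n]
    have h2 := ak_succ (n+1)
    rw [h2, Nat.factorial_succ]
    have hf : (n.factorial : ℚ) ≠ 0 := by exact_mod_cast n.factorial_ne_zero
    have hn : ((n : ℚ) + 1) ≠ 0 := by positivity
    have hn2 : (2 * ((n : ℚ) + 1) + 2) ≠ 0 := by positivity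
    push_cast
    field_simp
    ring

theorem TT_base (n : ℕ) : TT n (-1/2) = 0 := by
  unfold TT
  apply sum_eq_zero
  intro k _
  cases k with
  | zero =>
    simp [rr]
    left; norm_num
  | succ k =>
    have : rr (-1/2) (k+1) = 0 := by
      rw [rr_succ']; norm_num
    rw [this]; simp

/-- `α_j` -/
def al (N j : ℕ) : ℚ := ∏ i ∈ range j, (((N : ℚ) - i) / ((N + i + 1) * (i + 1)^2))

/-- `w(m,j) = (m-j+1)_{2(N+j)}` -/
def ww (N m j : ℕ) : ℚ := ∏ i ∈ range (2 * (N + j)), ((m : ℚ) - j + 1 + i)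

theorem ww_m (N m j : ℕ) : ww N (m+1) j * ((m : ℚ) + 1 - j) = ww N m j * (m + 2 * N + j + 1) := by
  have h1 := prod_range_succ (fun i : ℕ => ((m : ℚ) - j + 1 + i)) (2 * (N + j))
  have h2 := prod_range_succ' (fun i : ℕ => ((m : ℚ) - j + 1 + i)) (2 * (N + j))
  rw [h1] at h2
  unfold ww
  have e : ∏ i ∈ range (2 * (N + j)), ((m : ℚ) - j + 1 + ((i + 1 : ℕ) : ℚ)) = ∏ i ∈ range (2 * (N + j)), (((m + 1 : ℕ) : ℚ) - j + 1 + i) := by
    apply prod_congr rfl; intro i _; push_cast; ring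
  rw [e] at h2
  push_cast at h2 ⊢
  linear_combination -h2

theorem ww_j (N m j : ℕ) : ww N m (j+1) = ((m : ℚ) - j) * (m + 2 * N + j + 1) * ww N m j := by
  unfold ww
  rw [show 2 * (N + (j + 1)) = 2 * (N + j) + 1 + 1 by ring, prod_range_succ, prod_range_succ']
  have e : ∏ i ∈ range (2 * (N + j)), ((m : ℚ) - ((j + 1 : ℕ) : ℚ) + 1 + ((i + 1 : ℕ) : ℚ)) = ∏ i ∈ range (2 * (N + j)), ((m : ℚ) - j + 1 + i) := by
    apply prod_congr rfl; intro i _; push_cast; ring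
  rw [e]
  push_cast
  ring

theorem al_succ (N j : ℕ) : al N (j+1) = al N j * (((N : ℚ) - j) / ((N + j + 1) * (j + 1)^2)) := by
  unfold al; rw [prod_range_succ]

def YY (N m : ℕ) : ℚ := ∑ j ∈ range (N+1), al N j * ww N m j

/-- certificate -/
def Gc (N m j : ℕ) : ℚ := -2 * al N j * j^2 * (N + j) * ww N (m+1) j / (m + 2 * N + j + 1)

theorem YY_rec (N m : ℕ) : ((m : ℚ) + 1)^2 * YY N (m+1) = (m + 2 * N + 1)^2 * YY N m := by
  have key : ∀ j : ℕ, ((m : ℚ) + 1)^2 * (al N j * ww N (m+1) j) - (m + 2 * N + 1)^2 * (al N j * ww N m j)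
      = Gc N m (j+1) - Gc N m j := by
    intro j
    have h1 := ww_m N m j
    have h2 := ww_j N (m+1) j
    unfold Gc
    rw [h2, al_succ]
    have p1 : ((m : ℚ) + 2 * N + j + 1) ≠ 0 := by positivity
    have p2 : ((m : ℚ) + 2 * N + ((j + 1 : ℕ) : ℚ) + 1) ≠ 0 := by positivity
    have p3 : ((N : ℚ) + j + 1) ≠ 0 := by positivity
    have p4 : ((j : ℚ) + 1) ≠ 0 := by positivity
    have h3 : ww N m j = ww N (m+1) j * ((m : ℚ) + 1 - j) / (m + 2 * N + j + 1) := by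
      rw [eq_div_iff p1, h1]
    rw [h3]
    push_cast at p2 ⊢
    field_simp
    ring
  have h := sum_range_sub (fun j => Gc N m j) (N+1)
  have hG0 : Gc N m 0 = 0 := by unfold Gc; simp
  have hGN : Gc N m (N+1) = 0 := by
    unfold Gc
    have : al N (N+1) = 0 := by rw [al_succ]; simp
    rw [this]; simp
  rw [hG0, hGN, sub_zero] at h
  have h2 : ∑ j ∈ range (N+1), (((m : ℚ) + 1)^2 * (al N j * ww N (m+1) j) - (m + 2 * N + 1)^2 * (al N j * ww N m j)) = 0 := by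
    rw [← h]
    exact sum_congr rfl (fun j _ => key j)
  rw [sum_sub_distrib, ← mul_sum, ← mul_sum] at h2
  unfold YY
  linear_combination h2

theorem YY_zero (N : ℕ) : YY N 0 = ((2 * N).factorial : ℚ) := by
  unfold YY
  rw [sum_range_succ']
  have : ∑ j ∈ range N, al N (j+1) * ww N 0 (j+1) = 0 := by
    apply sum_eq_zero
    intro j _
    have : ww N 0 (j+1) = 0 := by
      unfold ww
      apply prod_eq_zero (mem_range.mpr (show j < 2 * (N + (j+1)) by omega))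
      push_cast; ring
    rw [this, mul_zero]
  rw [this, zero_add]
  unfold al ww
  simp only [range_zero, prod_empty, one_mul, add_zero]
  rw [← prod_range_add_one_eq_factorial]
  push_cast
  apply prod_congr rfl
  intro i _
  ring

/-- Saalschütz: `Y(m) = (2N)! C(m+2N,2N)^2` -/
theorem YY_eq (N m : ℕ) : YY N m = ((2 * N).factorial : ℚ) * (rr ((m : ℚ) + 1/2) (2 * N) / ((2 * N).factorial : ℚ))^2 := by
  induction m with
  | zero =>
    rw [YY_zero]
    have : rr (((0 : ℕ) : ℚ) + 1/2) (2 * N) = ((2 * N).factorial : ℚ) := by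
      unfold rr
      rw [← prod_range_add_one_eq_factorial]
      push_cast
      apply prod_congr rfl
      intro i _
      ring
    rw [this]
    have hf : ((2 * N).factorial : ℚ) ≠ 0 := by exact_mod_cast (2 * N).factorial_ne_zero
    field_simp
  | succ m ih =>
    have h := YY_rec N m
    rw [ih] at h
    have hm : ((m : ℚ) + 1) ≠ 0 := by positivity
    have hr : rr (((m + 1 : ℕ) : ℚ) + 1/2) (2 * N) * ((m : ℚ) + 1) = rr ((m : ℚ) + 1/2) (2 * N) * (m + 2 * N + 1) := by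
      have h1 := rr_succ' ((m : ℚ) + 1/2) (2 * N)
      have h2 := rr_succ ((m : ℚ) + 1/2) (2 * N)
      rw [h1] at h2
      have e : (m : ℚ) + 1/2 + 1 = ((m + 1 : ℕ) : ℚ) + 1/2 := by push_cast; ring
      rw [e] at h2
      push_cast at h2 ⊢
      linear_combination h2
    have hr2 : rr (((m + 1 : ℕ) : ℚ) + 1/2) (2 * N) = rr ((m : ℚ) + 1/2) (2 * N) * (m + 2 * N + 1) / ((m : ℚ) + 1) := by
      rw [eq_div_iff hm, hr]
    rw [hr2]
    have hf : ((2 * N).factorial : ℚ) ≠ 0 := by exact_mod_cast (2 * N).factorial_ne_zero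
    field_simp at h ⊢
    linear_combination h

/-- `φ_j(x) = (x+1/2-j)_{2(N+j)+1}` -/
def ph (N j : ℕ) (x : ℚ) : ℚ := ∏ i ∈ range (2 * (N + j) + 1), (x + 1/2 - j + i)

theorem ph_diff (N j m : ℕ) : ph N j ((m : ℚ) + 1 - 1/2) - ph N j ((m : ℚ) - 1/2) = (2 * (N + j) + 1) * ww N m j := by
  unfold ph ww
  rw [prod_range_succ, prod_range_succ']
  have e1 : ∏ i ∈ range (2 * (N + j)), ((m : ℚ) + 1 - 1/2 + 1/2 - j + i) = ∏ i ∈ range (2 * (N + j)), ((m : ℚ) - j + 1 + i) := by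
    apply prod_congr rfl; intro i _; ring
  have e2 : ∏ i ∈ range (2 * (N + j)), ((m : ℚ) - 1/2 + 1/2 - j + ((i + 1 : ℕ) : ℚ)) = ∏ i ∈ range (2 * (N + j)), ((m : ℚ) - j + 1 + i) := by
    apply prod_congr rfl; intro i _; push_cast; ring
  rw [e1, e2]
  push_cast
  ring

/-- `Z(x)` -/
def ZZ (N : ℕ) (x : ℚ) : ℚ := ∑ j ∈ range (N+1), al N j * ph N j x / (2 * (N + j) + 1)

theorem ZZ_diff (N m : ℕ) : ZZ N ((m : ℚ) + 1 - 1/2) - ZZ N ((m : ℚ) - 1/2) = YY N m := by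
  unfold ZZ YY
  rw [← sum_sub_distrib]
  apply sum_congr rfl
  intro j _
  have h := ph_diff N j m
  have hn : (2 * ((N : ℚ) + j) + 1) ≠ 0 := by positivity
  generalize ph N j ((m : ℚ) + 1 - 1/2) = A at *
  generalize ph N j ((m : ℚ) - 1/2) = B at *
  field_simp
  linear_combination (al N j) * h

theorem ZZ_base (N : ℕ) : ZZ N (-1/2) = 0 := by
  unfold ZZ
  apply sum_eq_zero
  intro j _
  have : ph N j (-1/2) = 0 := by
    unfold ph
    apply prod_eq_zero (mem_range.mpr (show j < 2 * (N + j) + 1 by omega))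
    ring
  rw [this]; simp

theorem TT_ZZ_half (N m : ℕ) :
    TT (2 * N + 1) ((m : ℚ) - 1/2) = 4^(2 * N + 1) * ak (2 * N + 1) * (2 * N + 1) / ((2 * N).factorial : ℚ) * ZZ N ((m : ℚ) - 1/2) := by
  induction m with
  | zero =>
    have e : (((0 : ℕ) : ℚ) - 1/2) = -1/2 := by norm_num
    rw [e, TT_base, ZZ_base]; simp
  | succ m ih =>
    have h1 := TT_diff (2 * N) ((m : ℚ) - 1/2)
    have h2 := ZZ_diff N m
    have e : (((m + 1 : ℕ) : ℚ) - 1/2) = (m : ℚ) + 1 - 1/2 := by push_cast; ring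
    have e2 : (m : ℚ) - 1/2 + 1 = (m : ℚ) + 1 - 1/2 := by ring
    have e3 : (m : ℚ) + 1 - 1/2 = (m : ℚ) + 1/2 := by ring
    rw [e]
    rw [e2] at h1
    rw [YY_eq] at h2
    have hf : ((2 * N).factorial : ℚ) ≠ 0 := by exact_mod_cast (2 * N).factorial_ne_zero
    rw [ih] at h1
    have h3 : rr ((m : ℚ) + 1 - 1/2) (2 * N) = rr ((m : ℚ) + 1/2) (2 * N) := by rw [e3]
    rw [h3] at h1
    have h4 : ZZ N ((m : ℚ) + 1 - 1/2) = ZZ N ((m : ℚ) - 1/2) + ((2 * N).factorial : ℚ) * (rr ((m : ℚ) + 1/2) (2 * N) / ((2 * N).factorial : ℚ))^2 := by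
      linear_combination h2
    rw [h4]
    have h5 : TT (2 * N + 1) ((m : ℚ) + 1 - 1/2) = 4^(2 * N + 1) * ak (2 * N + 1) * (2 * N + 1) / ((2 * N).factorial : ℚ) * ZZ N ((m : ℚ) - 1/2)
        + 4^(2 * N + 1) * ak (2 * N + 1) * (((2 * N : ℕ) : ℚ)+1) * (rr ((m : ℚ) + 1/2) (2 * N) / ((2 * N).factorial : ℚ))^2 := by
      linear_combination h1
    rw [h5]
    push_cast
    field_simp

/-- polynomial versions -/
noncomputable def rrP (k : ℕ) : ℚ[X] := ∏ i ∈ range k, (Polynomial.X + C (1/2 + (i : ℚ)))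

theorem rrP_eval (k : ℕ) (x : ℚ) : (rrP k).eval x = rr x k := by
  unfold rrP rr
  rw [eval_prod]
  apply prod_congr rfl
  intro i _
  simp; ring

noncomputable def TTP (n : ℕ) : ℚ[X] :=
  ∑ k ∈ range n, (C (3 * (k : ℚ) + 1) + C 2 * Polynomial.X) * C (ak k * 4^k) * (rrP k * C ((k.factorial : ℚ)⁻¹))^2

theorem TTP_eval (n : ℕ) (x : ℚ) : (TTP n).eval x = TT n x := by
  unfold TTP TT
  rw [eval_finsetSum]
  apply sum_congr rfl
  intro k _
  simp only [eval_mul, eval_add, eval_C, eval_X, eval_pow, rrP_eval]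
  ring

noncomputable def phP (N j : ℕ) : ℚ[X] := ∏ i ∈ range (2 * (N + j) + 1), (Polynomial.X + C (1/2 - (j : ℚ) + i))

theorem phP_eval (N j : ℕ) (x : ℚ) : (phP N j).eval x = ph N j x := by
  unfold phP ph
  rw [eval_prod]
  apply prod_congr rfl
  intro i _
  simp; ring

noncomputable def ZZP (N : ℕ) : ℚ[X] := ∑ j ∈ range (N+1), C (al N j / (2 * (N + j) + 1)) * phP N j

theorem ZZP_eval (N : ℕ) (x : ℚ) : (ZZP N).eval x = ZZ N x := by
  unfold ZZP ZZ
  rw [eval_finsetSum]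
  apply sum_congr rfl
  intro j _
  simp only [eval_mul, eval_C, phP_eval]
  ring

theorem TT_ZZ (N : ℕ) (x : ℚ) :
    TT (2 * N + 1) x = 4^(2 * N + 1) * ak (2 * N + 1) * (2 * N + 1) / ((2 * N).factorial : ℚ) * ZZ N x := by
  have hp : TTP (2 * N + 1) = C (4^(2 * N + 1) * ak (2 * N + 1) * (2 * N + 1) / ((2 * N).factorial : ℚ)) * ZZP N := by
    apply Polynomial.eq_of_infinite_eval_eq
    apply Set.infinite_of_injective_forall_mem (f := fun m : ℕ => (m : ℚ) - 1/2)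
    · intro a b hab
      simp only [sub_left_inj, Nat.cast_inj] at hab
      exact hab
    · intro m
      simp only [Set.mem_ofPred_eq]
      rw [TTP_eval, eval_mul, eval_C, ZZP_eval]
      exact TT_ZZ_half N m
  have := congrArg (fun q => Polynomial.eval x q) hp
  simp only [eval_mul, eval_C, TTP_eval, ZZP_eval] at this
  exact this

/-- the coefficients `c_j` -/
def ck (N j : ℕ) : ℚ := ak j ^ 2 * ∏ i ∈ range j, ((1 - (2 * N + 1 : ℚ) / (2 * i + 1)) * (1 + 2 * ((2 * N + 1 : ℚ) / (2 * i + 1))) / (1 + (2 * N + 1 : ℚ) / (2 * i + 1)))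

theorem ph_succ (N j : ℕ) : ph N (j+1) 0 = - ((j : ℚ) + 1/2) * (2 * N + 1 + j + 1/2) * ph N j 0 := by
  unfold ph
  rw [show 2 * (N + (j + 1)) + 1 = (2 * (N + j) + 1) + 1 + 1 by ring, prod_range_succ, prod_range_succ']
  have e : ∏ i ∈ range (2 * (N + j) + 1), ((0 : ℚ) + 1/2 - ((j + 1 : ℕ) : ℚ) + ((i + 1 : ℕ) : ℚ)) = ∏ i ∈ range (2 * (N + j) + 1), ((0 : ℚ) + 1/2 - j + i) := by
    apply prod_congr rfl; intro i _; push_cast; ring
  rw [e]
  push_cast
  ring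

theorem ck_eq (N j : ℕ) : al N j * ph N j 0 = ck N j * ph N 0 0 := by
  induction j with
  | zero => simp [al, ck, ak]
  | succ j ih =>
    rw [al_succ, ph_succ]
    have h1 : ck N (j+1) = ck N j * (((2 * j + 1 : ℚ) / (2 * j + 2))^2 * ((1 - (2 * N + 1 : ℚ) / (2 * j + 1)) * (1 + 2 * ((2 * N + 1 : ℚ) / (2 * j + 1))) / (1 + (2 * N + 1 : ℚ) / (2 * j + 1)))) := by
      unfold ck
      rw [prod_range_succ, ak_succ]; ring
    rw [h1]
    have p1 : (2 * (j : ℚ) + 1) ≠ 0 := by positivity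
    have p2 : (2 * (j : ℚ) + 2) ≠ 0 := by positivity
    have p3 : (1 + (2 * N + 1 : ℚ) / (2 * j + 1)) ≠ 0 := by positivity
    have p4 : ((N : ℚ) + j + 1) ≠ 0 := by positivity
    have p5 : ((j : ℚ) + 1) ≠ 0 := by positivity
    have e : ((2 * j + 1 : ℚ) / (2 * j + 2))^2 * ((1 - (2 * N + 1 : ℚ) / (2 * j + 1)) * (1 + 2 * ((2 * N + 1 : ℚ) / (2 * j + 1))) / (1 + (2 * N + 1 : ℚ) / (2 * j + 1)))
        = (((N : ℚ) - j) / ((N + j + 1) * (j + 1)^2)) * (- ((j : ℚ) + 1/2) * (2 * N + 1 + j + 1/2)) := by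
      have p6 : (2 * (j : ℚ) + 1 + (2 * N + 1)) ≠ 0 := by positivity
      field_simp
      ring
    rw [e]
    linear_combination ((((N : ℚ) - j) / ((N + j + 1) * (j + 1)^2)) * (- ((j : ℚ) + 1/2) * (2 * N + 1 + j + 1/2))) * ih

theorem ph_zero (N : ℕ) : ph N 0 0 = ((2 * N).factorial : ℚ) * (2 * N + 1) * ak (2 * N + 1) := by
  have h : ∀ n : ℕ, ∏ i ∈ range n, ((0 : ℚ) + 1/2 - ((0 : ℕ) : ℚ) + i) = (n.factorial : ℚ) * ak n := by
    intro n
    induction n with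
    | zero => simp [ak]
    | succ n ih =>
      rw [prod_range_succ, ih, ak_succ, Nat.factorial_succ]
      have : (2 * (n : ℚ) + 2) ≠ 0 := by positivity
      push_cast
      field_simp
      ring
  unfold ph
  rw [add_zero, h, Nat.factorial_succ]
  push_cast
  ring

theorem rr_ak (k : ℕ) : rr 0 k / (k.factorial : ℚ) = ak k := by
  induction k with
  | zero => simp [rr, ak]
  | succ k ih =>
    rw [rr_succ, ak_succ, ← ih, Nat.factorial_succ]
    have hf : (k.factorial : ℚ) ≠ 0 := by exact_mod_cast k.factorial_ne_zero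
    have : (2 * (k : ℚ) + 2) ≠ 0 := by positivity
    have : ((k : ℚ) + 1) ≠ 0 := by positivity
    push_cast
    field_simp
    ring

/-- exact evaluation of `T_n / n` -/
theorem T_exact (N : ℕ) : ∑ k ∈ range (2 * N + 1), (3 * k + 1 : ℚ) * ak k ^ 3 * 4^k
    = (2 * N + 1) * ((2^(2 * N + 1) * ak (2 * N + 1))^2 * ∑ j ∈ range (N+1), ck N j * ((2 * N + 1 : ℚ) / (2 * N + 1 + 2 * j))) := by
  have h := TT_ZZ N 0
  have h1 : TT (2 * N + 1) 0 = ∑ k ∈ range (2 * N + 1), (3 * k + 1 : ℚ) * ak k ^ 3 * 4^k := by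
    unfold TT
    apply sum_congr rfl
    intro k _
    rw [rr_ak]; ring
  rw [← h1, h]
  unfold ZZ
  rw [mul_sum, mul_sum, mul_sum]
  apply sum_congr rfl
  intro j _
  rw [ck_eq, ph_zero]
  have hf : ((2 * N).factorial : ℚ) ≠ 0 := by exact_mod_cast (2 * N).factorial_ne_zero
  have hn : (2 * ((N : ℚ) + j) + 1) ≠ 0 := by positivity
  have hn2 : (2 * (N : ℚ) + 1 + 2 * j) ≠ 0 := by positivity
  have e4 : (4 : ℚ)^(2 * N + 1) = (2^(2 * N + 1))^2 := by
    rw [← pow_mul, mul_comm (2 * N + 1) 2, pow_mul]; norm_num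
  rw [e4]
  have e5 : (2 * ((N : ℚ) + j) + 1) = 2 * (N : ℚ) + 1 + 2 * j := by ring
  rw [e5]
  field_simp

end Pool.Agent.D0H46.SC
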