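import Mathlib
import Pool.Agent.D0H46.SC.Main
import Pool.Agent.D0H46.SC.Tn

namespace Pool.Agent.D0H46.SC

open Finset

section
variable {p : ℕ} [hp : Fact p.Prime] {P : ℕ}

theorem idx (r N : ℕ) (hN : p^(r+1) = 2 * N + 1) (hP : p = 2 * P + 1) :
    ∀ o, o < P + 1 ↔ p^r * o < N + 1 := by
  have hNq : 2 * N + 1 = p^r * (2 * P + 1) := by rw [← hN, pow_succ, ← hP]
  have hq0 : 0 < p^r := Nat.pow_pos hp.out.pos
  intro o
  constructor
  · intro ho
    have : p^r * o ≤ p^r * P := Nat.mul_le_mul_left _ (by omega)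
    have h3 : p^r * (2 * P + 1) = 2 * (p^r * P) + p^r := by ring
    omega
  · intro ho
    by_contra hc
    have : p^r * (P + 1) ≤ p^r * o := Nat.mul_le_mul_left _ (by omega)
    have h3 : p^r * (2 * P + 1) = 2 * (p^r * P) + p^r := by ring
    have h4 : p^r * (P + 1) = p^r * P + p^r := by ring
    omega

theorem ndiv (r N : ℕ) (hN : p^(r+1) = 2 * N + 1) (k : ℕ) (h0 : 0 < k) (h1 : k < 2 * N + 1) :
    (2 * N + 1 : ℚ) / k ∈ I p 1 := by
  have hnp : (2 * N + 1 : ℚ) = (p : ℚ)^(r+1) := by exact_mod_cast hN.symm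
  rw [hnp]
  exact ppow_div h0 (by omega)

theorem ndiv2 (r N : ℕ) (hN : p^(r+1) = 2 * N + 1) (k : ℕ) (h0 : 0 < k) (h1 : k < 2 * N + 1) (h2 : ¬ p^r ∣ k) :
    (2 * N + 1 : ℚ) / k ∈ I p 2 := by
  have hnp : (2 * N + 1 : ℚ) = (p : ℚ)^(r+1) := by exact_mod_cast hN.symm
  rw [hnp]
  exact ppow_div2 h0 (by omega) h2

theorem nx (r N : ℕ) (hN : p^(r+1) = 2 * N + 1) (j : ℕ) (hj : j < N) : (2 * N + 1 : ℚ) / (2 * j + 1) ∈ I p 1 := by
  have := ndiv r N hN (2 * j + 1) (by omega) (by omega)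
  push_cast at this
  exact this

theorem ny (r N : ℕ) (hN : p^(r+1) = 2 * N + 1) (k : ℕ) (h0 : 0 < k) (hk : k ≤ N) : (2 * N + 1 : ℚ) / (2 * k) ∈ I p 1 := by
  have := ndiv r N hN (2 * k) (by omega) (by omega)
  push_cast at this
  exact this

theorem prod_est (hP : p = 2 * P + 1) (r N : ℕ) (hN : p^(r+1) = 2 * N + 1) :
    ∏ j ∈ range N, (1 - ((2 * N + 1 : ℚ) / (2 * (j + 1)))^2) - (1 - (p : ℚ)^2 * 4⁻¹ * Hq 2 P) ∈ I p 4 := by
  have hp0 : (p : ℚ) ≠ 0 := by exact_mod_cast hp.out.ne_zero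
  have hq0 : 0 < p^r := Nat.pow_pos hp.out.pos
  have hqodd : Odd (p^r) := Odd.pow ⟨P, hP⟩
  have hnp : (2 * N + 1 : ℚ) = (p : ℚ)^(r+1) := by exact_mod_cast hN.symm
  have hg : ∀ j ∈ range N, ((2 * N + 1 : ℚ) / (2 * ((j : ℚ) + 1)))^2 ∈ I p 2 := by
    intro j hj
    have hj := mem_range.mp hj
    have := I_pow (ny r N hN (j+1) (by omega) (by omega)) 2
    push_cast at this
    exact this
  have h1 := prod_one_sub (p := p) (range N) (fun j => ((2 * N + 1 : ℚ) / (2 * ((j : ℚ) + 1)))^2) hg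
  have h2 := sieve (p := p) (p^r) (N+1) (P+1) 4 hq0 (idx r N hN hP) (fun o => ((2 * N + 1 : ℚ) / (2 * o))^2) (by
    intro o ho hno
    have ho0 : 0 < o := by
      rcases Nat.eq_zero_or_pos o with rfl | h
      · exact absurd (dvd_zero _) hno
      · exact h
    have h3 := ndiv2 r N hN (2 * o) (by omega) (by omega) (by
      intro hd
      apply hno
      exact (Nat.Coprime.dvd_mul_left (Nat.Coprime.symm (Nat.coprime_two_left.mpr hqodd))).mp hd)
    have := I_pow h3 2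
    push_cast at this
    exact this)
  rw [sum_range_succ' (fun o : ℕ => ((2 * N + 1 : ℚ) / (2 * o))^2) N,
    sum_range_succ' (fun o : ℕ => ((2 * N + 1 : ℚ) / (2 * ((p^r * o : ℕ) : ℚ)))^2) P] at h2
  have e1 : ∑ k ∈ range P, ((2 * N + 1 : ℚ) / (2 * ((p^r * (k+1) : ℕ) : ℚ)))^2 = (p : ℚ)^2 * 4⁻¹ * Hq 2 P := by
    unfold Hq
    rw [mul_sum]
    apply sum_congr rfl
    intro k _
    rw [hnp]
    push_cast
    have : (k : ℚ) + 1 ≠ 0 := by positivity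
    have : (p : ℚ)^r ≠ 0 := pow_ne_zero _ hp0
    rw [pow_succ (p : ℚ) r]
    field_simp
    norm_num
  rw [e1] at h2
  simp only [Nat.cast_zero, mul_zero, div_zero] at h2
  have e2 : ∑ k ∈ range N, ((2 * N + 1 : ℚ) / (2 * ((k+1 : ℕ) : ℚ)))^2 = ∑ j ∈ range N, ((2 * N + 1 : ℚ) / (2 * ((j : ℚ) + 1)))^2 := by
    apply sum_congr rfl
    intro k _
    push_cast
    rfl
  rw [e2] at h2
  have h3 := sub_mem h1 h2
  convert h3 using 1
  ring

theorem sum_est (hP : p = 2 * P + 1) (hP2 : 2 ≤ P) (r N : ℕ) (hN : p^(r+1) = 2 * N + 1) :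
    ∑ k ∈ range (N+1), ak k ^ 2 * (∑ j ∈ range k, ((2 * N + 1 : ℚ) / (2 * j + 1))^2) * ((2 * N + 1 : ℚ) / (2 * k))
      - (p : ℚ)^3 * Xr (p^r) P ∈ I p 4 := by
  have hp2 : 2 < p := by omega
  have hp0 : (p : ℚ) ≠ 0 := by exact_mod_cast hp.out.ne_zero
  have hq0 : 0 < p^r := Nat.pow_pos hp.out.pos
  have hqodd : Odd (p^r) := Odd.pow ⟨P, hP⟩
  have hnp : (2 * N + 1 : ℚ) = (p : ℚ)^(r+1) := by exact_mod_cast hN.symm
  have hLB := idx r N hN hP
  have hSf : ∀ k ≤ N, ∑ j ∈ range k, ((2 * N + 1 : ℚ) / (2 * j + 1))^2 ∈ I p 2 := by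
    intro k hk
    apply sum_mem
    intro j hj
    have hj := mem_range.mp hj
    exact I_pow (nx r N hN j (by omega)) 2
  have h2 := sieve (p := p) (p^r) (N+1) (P+1) 4 hq0 hLB
    (fun k => ak k ^ 2 * (∑ j ∈ range k, ((2 * N + 1 : ℚ) / (2 * j + 1))^2) * ((2 * N + 1 : ℚ) / (2 * k))) (by
      intro o ho hno
      have ho0 : 0 < o := by
        rcases Nat.eq_zero_or_pos o with rfl | h
        · exact absurd (dvd_zero _) hno
        · exact h
      have h3 := ndiv2 r N hN (2 * o) (by omega) (by omega) (by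
        intro hd
        apply hno
        exact (Nat.Coprime.dvd_mul_left (Nat.Coprime.symm (Nat.coprime_two_left.mpr hqodd))).mp hd)
      push_cast at h3
      exact I_mul (I_mul_left (pow_mem (ak_Zp hp2 _) _) (hSf o (by omega))) h3)
  rw [sum_range_succ' (fun k => ak (p^r * k) ^ 2 * (∑ j ∈ range (p^r * k), ((2 * N + 1 : ℚ) / (2 * j + 1))^2)
    * ((2 * N + 1 : ℚ) / (2 * ((p^r * k : ℕ) : ℚ)))) P] at h2
  have hy0 : ((2 * N + 1 : ℚ) / (2 * ((p^r * 0 : ℕ) : ℚ))) = 0 := by simp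
  rw [hy0, mul_zero, add_zero] at h2
  have h4 : ∑ k ∈ range P, ak (p^r * (k+1)) ^ 2 * (∑ j ∈ range (p^r * (k+1)), ((2 * N + 1 : ℚ) / (2 * j + 1))^2)
      * ((2 * N + 1 : ℚ) / (2 * ((p^r * (k+1) : ℕ) : ℚ))) - (p : ℚ)^3 * Xr (p^r) P ∈ I p 4 := by
    unfold Xr
    rw [mul_sum, ← sum_sub_distrib]
    apply sum_mem
    intro k hk
    have hk := mem_range.mp hk
    have hyk : ((2 * N + 1 : ℚ) / (2 * ((p^r * (k+1) : ℕ) : ℚ))) = p * ((2 * (k + 1) : ℕ) : ℚ)⁻¹ := by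
      rw [hnp]
      push_cast
      have : (k : ℚ) + 1 ≠ 0 := by positivity
      have : (p : ℚ)^r ≠ 0 := pow_ne_zero _ hp0
      rw [pow_succ]
      field_simp
    have hqk : p^r * (k+1) ≤ N := by
      have := (hLB (k+1)).mp (by omega)
      omega
    have hsum : ∑ j ∈ range (p^r * (k+1)), ((2 * N + 1 : ℚ) / (2 * j + 1))^2 - (p : ℚ)^2 * Oq (k+1) ∈ I p 4 := by
      have g1 : ∑ j ∈ range (p^r * (k+1)), ((2 * N + 1 : ℚ) / (2 * j + 1))^2
          = ∑ o ∈ range (2 * (p^r * (k+1))), (if Odd o then ((2 * N + 1 : ℚ) / o)^2 else 0) := by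
        rw [split_parity]
        apply sum_congr rfl
        intro j _
        have o1 : ¬ Odd (2 * j) := Nat.not_odd_iff_even.mpr (even_two_mul j)
        have o2 : Odd (2 * j + 1) := odd_two_mul_add_one j
        rw [if_neg o1, if_pos o2, zero_add]
        push_cast
        rfl
      have g2 : (p : ℚ)^2 * Oq (k+1) = ∑ o ∈ range (2 * (k+1)), (if Odd (p^r * o) then ((2 * N + 1 : ℚ) / ((p^r * o : ℕ) : ℚ))^2 else 0) := by
        rw [split_parity]
        unfold Oq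
        rw [mul_sum]
        apply sum_congr rfl
        intro j _
        have o1 : ¬ Odd (p^r * (2 * j)) := Nat.not_odd_iff_even.mpr ((even_two_mul j).mul_left _)
        have o2 : Odd (p^r * (2 * j + 1)) := hqodd.mul (odd_two_mul_add_one j)
        rw [if_neg o1, if_pos o2, zero_add, hnp]
        push_cast
        have h5 : (2 * (j : ℚ) + 1) ≠ 0 := by positivity
        have h6 : (p : ℚ)^r ≠ 0 := pow_ne_zero _ hp0
        rw [pow_succ (p : ℚ) r]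
        field_simp
      rw [g1, g2]
      apply sieve (p := p) (p^r) (2 * (p^r * (k+1))) (2 * (k+1)) 4 hq0 _ (fun o => if Odd o then ((2 * N + 1 : ℚ) / o)^2 else 0)
      · intro o ho hno
        split_ifs with hodd
        · have ho0 : 0 < o := hodd.pos
          exact I_pow (ndiv2 r N hN o ho0 (by omega) hno) 2
        · exact zero_mem _
      · intro o
        rw [show 2 * (p^r * (k+1)) = p^r * (2 * (k+1)) by ring]
        exact (Nat.mul_lt_mul_left hq0).symm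
    rw [hyk]
    set Sk := ∑ j ∈ range (p^r * (k+1)), ((2 * N + 1 : ℚ) / (2 * j + 1))^2 with hSk
    have e : ak (p^r * (k+1)) ^ 2 * Sk * (p * ((2 * (k + 1) : ℕ) : ℚ)⁻¹)
      - (p : ℚ)^3 * (ak (p^r * (k+1)) ^ 2 * Oq (k+1) * ((2 * (k + 1) : ℕ) : ℚ)⁻¹)
      = (ak (p^r * (k+1)) ^ 2 * (p * ((2 * (k + 1) : ℕ) : ℚ)⁻¹)) * (Sk - (p : ℚ)^2 * Oq (k+1)) := by
      ring
    rw [e]
    apply I_mul_left _ hsum
    exact mul_mem (pow_mem (ak_Zp hp2 _) _) (mul_mem (natCast_Zp _) (inv_Zp (nd (by omega) (by omega))))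
  have h5 := add_mem h2 h4
  convert h5 using 1
  ring

/-- `1 + x` is a unit for `x ∈ I 1` -/
theorem one_add_ne {x : ℚ} (hx : x ∈ I p 1) : (((1 + x : ℚ)) : ZMod p) = 1 := by
  obtain ⟨u, hu, rfl⟩ := hx
  rw [pow_one, rd_add (one_mem _) (mul_mem (natCast_Zp p) hu), rd_mul (natCast_Zp p) hu, Rat.cast_natCast]
  simp

theorem inv_one_add {x : ℚ} (hx : x ∈ I p 1) : (1 + x)⁻¹ ∈ Zp p := by
  have h := one_add_ne hx
  set z : ℚ := 1 + x with hz
  rw [Rat.cast_def] at h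
  have hnum : ¬ p ∣ z.num.natAbs := by
    intro hd
    have h2 : ((z.num : ℤ) : ZMod p) = 0 := by
      rw [ZMod.intCast_zmod_eq_zero_iff_dvd]
      exact Int.natCast_dvd.mpr hd
    rw [h2, zero_div] at h
    exact zero_ne_one h
  have e : z⁻¹ = (z.den : ℚ) * ((z.num : ℤ) : ℚ)⁻¹ := by
    conv_lhs => rw [← Rat.num_div_den z]
    rw [inv_div, div_eq_mul_inv]
  rw [e]
  apply mul_mem (natCast_Zp _)
  rcases Int.natAbs_eq z.num with h3 | h3
  · rw [h3]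
    have := inv_Zp (p := p) hnum
    simpa using this
  · rw [h3]
    have := neg_mem (inv_Zp (p := p) hnum)
    rw [Int.cast_neg, inv_neg]
    simpa using this

theorem one_add_ne0 {x : ℚ} (hx : x ∈ I p 1) : 1 + x ≠ 0 := by
  intro h
  have := one_add_ne hx
  rw [h] at this
  simp at this

/-- `2^n a_n = ∏ (1 + n/(2j))` -/
theorem A_exact (N : ℕ) : 2^(2 * N + 1) * ak (2 * N + 1) = ∏ j ∈ range N, (1 + (2 * N + 1 : ℚ) / (2 * (j + 1))) := by
  have h1 : ∀ N : ℕ, ∏ j ∈ range N, (1 + (2 * N + 1 : ℚ) / (2 * (j + 1)))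
      = (∏ j ∈ range N, (2 * N + 2 * j + 3 : ℚ)) / ∏ j ∈ range N, (2 * ((j : ℚ) + 1)) := by
    intro N
    rw [← prod_div_distrib]
    apply prod_congr rfl
    intro j _
    have : ((j : ℚ) + 1) ≠ 0 := by positivity
    field_simp
    ring
  rw [h1]
  have hden : ∀ N : ℕ, ∏ j ∈ range N, (2 * ((j : ℚ) + 1)) ≠ 0 := by
    intro N
    rw [prod_ne_zero_iff]
    intro j _
    positivity
  rw [eq_div_iff (hden N)]
  induction N with
  | zero => simp [ak]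
  | succ N ih =>
    have h3 : (∏ j ∈ range (N+1), (2 * ((N + 1 : ℕ) : ℚ) + 2 * j + 3 : ℚ)) * (2 * N + 3) = (∏ j ∈ range N, (2 * N + 2 * j + 3 : ℚ)) * (4 * N + 3) * (4 * N + 5) := by
      have g1 := prod_range_succ (fun j : ℕ => (2 * N + 2 * j + 3 : ℚ)) N
      have g2 := prod_range_succ' (fun j : ℕ => (2 * N + 2 * j + 3 : ℚ)) N
      rw [g1] at g2
      rw [prod_range_succ]
      have g3 : ∏ j ∈ range N, (2 * ((N + 1 : ℕ) : ℚ) + 2 * j + 3 : ℚ) = ∏ j ∈ range N, (2 * N + 2 * ((j + 1 : ℕ) : ℚ) + 3 : ℚ) := by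
        apply prod_congr rfl; intro j _; push_cast; ring
      rw [g3]
      push_cast at g2 ⊢
      linear_combination (-(4 * (N : ℚ) + 5)) * g2
    have h4 : (2 * (N : ℚ) + 3) ≠ 0 := by positivity
    rw [← mul_left_inj' h4, h3, ← ih, prod_range_succ]
    rw [show 2 * (N + 1) + 1 = (2 * N + 1) + 1 + 1 by ring, ak_succ, ak_succ]
    have h5 : (2 * ((2 * N + 1 : ℕ) : ℚ) + 2) ≠ 0 := by positivity
    have h6 : (2 * ((2 * N + 1 + 1 : ℕ) : ℚ) + 2) ≠ 0 := by positivity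
    push_cast at h5 h6 ⊢
    field_simp
    ring

theorem saal2 (N : ℕ) : ∑ k ∈ range (N+1), bk N k * ((2 * N + 1 : ℚ) / (2 * N + 1 + 2 * k))
    = ∏ j ∈ range N, ((1 - (2 * N + 1 : ℚ) / (2 * (j + 1))) / (1 + (2 * N + 1 : ℚ) / (2 * (j + 1)))) := by
  have hx : ∀ k : ℕ, (-(2 * N + 1 : ℚ) / 2) ≠ k := by
    intro k h
    have h1 : (0 : ℚ) ≤ k := by positivity
    have h2 : (-(2 * N + 1 : ℚ) / 2) < 0 := by
      have : (0 : ℚ) ≤ N := by positivity
      linarith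
    linarith
  have h := pf N (-(2 * N + 1 : ℚ) / 2) hx
  have e1 : ∑ k ∈ range (N+1), bk N k * ((2 * N + 1 : ℚ) / (2 * N + 1 + 2 * k))
      = (-(2 * N + 1 : ℚ) / 2) * ∑ k ∈ range (N+1), bk N k / (-(2 * N + 1 : ℚ) / 2 - k) := by
    rw [mul_sum]
    apply sum_congr rfl
    intro k _
    have h1 : -(2 * N + 1 : ℚ) / 2 - k ≠ 0 := sub_ne_zero.mpr (hx k)
    have h2 : (2 * N + 1 + 2 * k : ℚ) ≠ 0 := by positivity
    have h3 : -(2 * N + 1 : ℚ) / 2 - k = - (2 * N + 1 + 2 * k) / 2 := by ring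
    rw [h3]
    field_simp
  rw [e1, h, prod_range_succ']
  have hden : ∏ k ∈ range N, (-(2 * N + 1 : ℚ) / 2 - ((k + 1 : ℕ) : ℚ)) ≠ 0 := by
    rw [prod_ne_zero_iff]
    intro k _
    exact sub_ne_zero.mpr (hx (k+1))
  have hx0 : (-(2 * N + 1 : ℚ) / 2) ≠ 0 := by
    have := hx 0
    simpa using this
  have key : ((-1)^N * Pd N (-(2 * N + 1 : ℚ) / 2) / ∏ k ∈ range N, (-(2 * N + 1 : ℚ) / 2 - ((k + 1 : ℕ) : ℚ)))
      = ∏ j ∈ range N, ((1 - (2 * N + 1 : ℚ) / (2 * (j + 1))) / (1 + (2 * N + 1 : ℚ) / (2 * (j + 1)))) := by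
    unfold Pd
    have hm1 : ((-1 : ℚ))^N = ∏ k ∈ range N, (-1 : ℚ) := by rw [prod_const, card_range]
    rw [hm1, ← prod_mul_distrib, ← prod_div_distrib]
    apply prod_congr rfl
    intro j _
    have h1 : -(2 * N + 1 : ℚ) / 2 - ((j + 1 : ℕ) : ℚ) ≠ 0 := sub_ne_zero.mpr (hx (j+1))
    have h2 : ((j : ℚ) + 1) ≠ 0 := by positivity
    have h3 : (1 + (2 * N + 1 : ℚ) / (2 * (j + 1))) ≠ 0 := by positivity
    push_cast at h1 ⊢
    have h4 : -(2 * N + 1 : ℚ) / 2 - ((j : ℚ) + 1) = - (2 * N + 1 + 2 * (j + 1)) / 2 := by ring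
    rw [h4]
    have h5 : (2 * N + 1 + 2 * ((j : ℚ) + 1)) ≠ 0 := by positivity
    field_simp
    ring
  rw [← key]
  simp only [Nat.cast_zero, sub_zero]
  field_simp

end
end Pool.Agent.D0H46.SC
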