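import Mathlib
import Pool.Agent.D0H46.SC.Est

namespace Pool.Agent.D0H46.SC

open Finset

section
variable {p : ℕ} [hp : Fact p.Prime] {P : ℕ}

/-- main p-adic estimate for the second sum -/
theorem main_estT (hP : p = 2 * P + 1) (hP2 : 2 ≤ P) (r N : ℕ) (hN : p^(r+1) = 2 * N + 1) :
    (2^(2 * N + 1) * ak (2 * N + 1))^2 * ∑ j ∈ range (N+1), ck N j * ((2 * N + 1 : ℚ) / (2 * N + 1 + 2 * j))
      - (1 - (p : ℚ)^2 * 4⁻¹ * Hq 2 P - (p : ℚ)^3 * Xr (p^r) P) ∈ I p 4 := by
  have hp2 : 2 < p := by omega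
  set n : ℚ := 2 * N + 1 with hn
  -- A = 2^n a_n
  set A : ℚ := 2^(2 * N + 1) * ak (2 * N + 1) with hA
  have hAZ : A ∈ Zp p := by
    rw [hA]
    exact mul_mem (pow_mem (by exact_mod_cast natCast_Zp (p := p) 2) _) (ak_Zp hp2 _)
  have hy : ∀ j ∈ range N, n / (2 * ((j : ℚ) + 1)) ∈ I p 1 := by
    intro j hj
    have hj := mem_range.mp hj
    have := ny r N hN (j+1) (by omega) (by omega)
    push_cast at this
    exact this
  have hAprod : A = ∏ j ∈ range N, (1 + n / (2 * ((j : ℚ) + 1))) := A_exact N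
  have hA1 : A^2 - 1 ∈ I p 1 := by
    apply rd_zero (sub_mem (pow_mem hAZ 2) (one_mem _))
    rw [rd_sub (pow_mem hAZ 2) (one_mem _), rd_pow hAZ, hAprod, rd_prod]
    · have : ∀ j ∈ range N, (((1 + n / (2 * ((j : ℚ) + 1)) : ℚ)) : ZMod p) = 1 := fun j hj => one_add_ne (hy j hj)
      rw [prod_congr rfl this]
      simp
    · intro j hj
      exact add_mem (one_mem _) (I_Zp (hy j hj))
  -- the product part
  have hprodA : A^2 * ∑ k ∈ range (N+1), bk N k * (n / (n + 2 * k)) = ∏ j ∈ range N, (1 - (n / (2 * (j + 1)))^2) := by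
    have := saal2 N
    rw [this, hAprod, ← prod_pow, ← prod_mul_distrib]
    apply prod_congr rfl
    intro j hj
    have h1 := one_add_ne0 (hy j hj)
    field_simp
    ring
  set T3 : ℚ := ∑ k ∈ range (N+1), ak k ^ 2 * (∑ j ∈ range k, (n / (2 * j + 1))^2) * (n / (2 * k)) with hT3
  have hse := sum_est hP hP2 r N hN
  have hT3I : T3 ∈ I p 3 := by
    have h1 : T3 = (T3 - (p : ℚ)^3 * Xr (p^r) P) + (p : ℚ)^3 * Xr (p^r) P := by ring
    rw [h1]
    apply add_mem
    · exact I_mono (by norm_num) hse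
    · exact ⟨_, Xr_Zp hP hP2 _, rfl⟩
  -- difference
  have hdiff : ∑ j ∈ range (N+1), ck N j * (n / (n + 2 * j)) - (∑ k ∈ range (N+1), bk N k * (n / (n + 2 * k)) - T3) ∈ I p 4 := by
    have e : ∑ j ∈ range (N+1), ck N j * (n / (n + 2 * j)) - (∑ k ∈ range (N+1), bk N k * (n / (n + 2 * k)) - T3)
      = ∑ k ∈ range (N+1), ((ck N k - bk N k) * (n / (n + 2 * k)) + ak k ^ 2 * (∑ j ∈ range k, (n / (2 * j + 1))^2) * (n / (2 * k))) := by
      rw [hT3, sum_add_distrib]
      simp_rw [sub_mul]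
      rw [sum_sub_distrib]
      ring
    rw [e]
    apply sum_mem
    intro k hk
    have hk : k ≤ N := by simpa [Nat.lt_succ_iff] using hk
    rcases Nat.eq_zero_or_pos k with rfl | h0
    · simp [ck, bk, ak]
    · have hx : ∀ i ∈ range k, n / (2 * i + 1) ∈ I p 1 := by
        intro i hi
        have hi := mem_range.mp hi
        exact nx r N hN i (by omega)
      have hyk : n / (2 * k) ∈ I p 1 := ny r N hN k h0 hk
      have hk0 : (k : ℚ) ≠ 0 := by positivity
      have hzz : n / (n + 2 * k) = (n / (2 * k)) * (1 + n / (2 * k))⁻¹ := by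
        have h2 : (n + 2 * (k : ℚ)) ≠ 0 := by rw [hn]; positivity
        have h3 : 1 + n / (2 * k) ≠ 0 := one_add_ne0 hyk
        have h4 : 1 + n / (2 * k) = (n + 2 * k) / (2 * k) := by field_simp; ring
        rw [h4]
        field_simp
      have hz : n / (n + 2 * k) ∈ I p 1 := by
        rw [hzz]
        exact I_mul_right hyk (inv_one_add hyk)
      have hzy : n / (n + 2 * k) - n / (2 * k) = - (n / (2 * k)) * (n / (n + 2 * k)) := by
        rw [hzz]
        have h3 : 1 + n / (2 * k) ≠ 0 := one_add_ne0 hyk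
        generalize n / (2 * (k : ℚ)) = Y at h3
        field_simp
        ring
      -- products
      set f : ℕ → ℚ := fun i => (n / (2 * i + 1))^2 with hf
      set g : ℕ → ℚ := fun i => 2 * (n / (2 * i + 1))^2 * (1 + n / (2 * i + 1))⁻¹ with hg
      have hfI : ∀ i ∈ range k, f i ∈ I p 2 := fun i hi => I_pow (hx i hi) 2
      have h2Z : (2 : ℚ) ∈ Zp p := by exact_mod_cast natCast_Zp (p := p) 2
      have hgI : ∀ i ∈ range k, g i ∈ I p 2 := fun i hi =>
        I_mul_right (I_mul_left h2Z (I_pow (hx i hi) 2)) (inv_one_add (hx i hi))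
      have hpf := prod_one_sub (p := p) (range k) f hfI
      have hpg := prod_one_sub (p := p) (range k) g hgI
      have hgf : ∀ i ∈ range k, g i - 2 * f i ∈ I p 3 := by
        intro i hi
        have h3 := one_add_ne0 (hx i hi)
        have e1 : g i - 2 * f i = (-2) * ((n / (2 * i + 1))^3 * (1 + n / (2 * i + 1))⁻¹) := by
          simp only [hf, hg]
          generalize n / (2 * (i : ℚ) + 1) = X at h3
          field_simp
          ring
        rw [e1]
        apply I_mul_left (neg_mem h2Z)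
        exact I_mul_right (I_pow (hx i hi) 3) (inv_one_add (hx i hi))
      have hsgf : ∑ i ∈ range k, g i - 2 * ∑ i ∈ range k, f i ∈ I p 3 := by
        rw [mul_sum, ← sum_sub_distrib]
        exact sum_mem hgf
      have hSf : ∑ i ∈ range k, f i ∈ I p 2 := sum_mem hfI
      have hck : ck N k = ak k ^ 2 * ∏ i ∈ range k, (1 - g i) := by
        unfold ck
        congr 1
        apply prod_congr rfl
        intro i hi
        have h3 := one_add_ne0 (hx i hi)
        simp only [hg, ← hn]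
        generalize n / (2 * (i : ℚ) + 1) = X at h3
        field_simp
        ring
      have hbk : bk N k = ak k ^ 2 * ∏ j ∈ range k, (1 - f j) := bk_ak N k
      set Pf := ∏ j ∈ range k, (1 - f j) with hPf
      set Pg := ∏ j ∈ range k, (1 - g j) with hPg
      set Sf := ∑ i ∈ range k, f i with hSfd
      set Sg := ∑ i ∈ range k, g i with hSgd
      have e2 : (ck N k - bk N k) * (n / (n + 2 * k)) + ak k ^ 2 * Sf * (n / (2 * k))
          = ak k ^ 2 * (((Pg - (1 - Sg)) - (Pf - (1 - Sf)) - (Sg - 2 * Sf)) * (n / (n + 2 * k)) + Sf * ((n / (2 * k)) * (n / (n + 2 * k)))) := by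
        rw [hbk, hck]
        linear_combination (-ak k ^ 2 * Sf) * hzy
      rw [e2]
      apply I_mul_left (pow_mem (ak_Zp hp2 _) _)
      apply add_mem
      · exact I_mul (a := 3) (b := 1) (sub_mem (sub_mem (I_mono (by norm_num) hpg) (I_mono (by norm_num) hpf)) hsgf) hz
      · exact I_mul (a := 2) (b := 2) hSf (I_mul (a := 1) (b := 1) hyk hz)
  have hpe := prod_est hP r N hN
  have h1 := I_mul_left (pow_mem hAZ 2) hdiff
  have h2 : (A^2 - 1) * T3 ∈ I p 4 := I_mul (a := 1) (b := 3) hA1 hT3I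
  have h3 := add_mem (add_mem h1 hpe) (neg_mem (add_mem h2 hse))
  convert h3 using 1
  rw [← hprodA]
  ring

theorem main_congT (hP : p = 2 * P + 1) (hP2 : 2 ≤ P) (r N : ℕ) (hN : p^(r+1) = 2 * N + 1) :
    (2^(2 * N + 1) * ak (2 * N + 1))^2 * ∑ j ∈ range (N+1), ck N j * ((2 * N + 1 : ℚ) / (2 * N + 1 + 2 * j))
      - (1 + 7 / 6 * bernoulli (p - 3) * (p : ℚ)^3) ∈ I p 4 := by
  have hp2 : 2 < p := by omega
  have h1 := main_estT hP hP2 r N hN
  have h2 := main_est hP hP2 r N hN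
  have h3 := main_cong hP hP2 r N hN
  -- a_N^2 ≡ 1
  have hA : ak N ^ 2 - 1 ∈ I p 1 := by
    apply rd_zero (sub_mem (pow_mem (ak_Zp hp2 N) 2) (one_mem _))
    rw [rd_sub (pow_mem (ak_Zp hp2 N) 2) (one_mem _), rd_pow (ak_Zp hp2 N), rd_ak_Nr hP hP2 (r+1) N hN]
    simp
  have h4 : (ak N ^ 2 - 1) * ((p : ℚ)^3 * Xr (p^r) P) ∈ I p 4 :=
    I_mul (a := 1) (b := 3) hA ⟨_, Xr_Zp hP hP2 _, rfl⟩
  have h5 := add_mem (add_mem (sub_mem h1 h2) h3) h4
  convert h5 using 1
  ring

end
end Pool.Agent.D0H46.SC
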